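import Pool.Agent.SFD.Gen
import Pool.Agent.QDX.Final

/-!
# Superelliptic curves: the theorem with the sharp discriminants of the quadratic points
-/

set_option autoImplicit false

open Polynomial NumberField IntermediateField Module Pool.Agent.RefW

namespace Pool.Agent.SFD

/-- lower bounds for the discriminants of almost all points of degree `m` -/
theorem discLow (k : Type) [Field k] [NumberField k] (m : ℕ) (A' : ℝ)
    (hA' : A' = 0 ∨ (0 < A' ∧ A' * HD.ex (finrank ℚ k) m < m - 1) ∨ (m = 2 ∧ A' < 2)) :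
    DiscLow k m A' := by
  rcases hA' with h | h | ⟨rfl, h⟩
  · exact disc_x k m A' (Or.inl h)
  · exact disc_x k m A' (Or.inr h)
  · exact QDX.disc_two k A' h

/-- **The number of points with a small discriminant.** -/
theorem viol_all (k : Type) [Field k] [NumberField k] (f₁ f₂ : k[X]) (hf : Squarefree (f₁ * f₂))
    (N m : ℕ) (hN : 1 ≤ N) (hm : 1 ≤ m)
    (hD : ∀ g : k[X], Irreducible g → g ∣ f₁ → g.natDegree ≤ 2 * m + 1) (A' : ℝ)
    (hA' : A' = 0 ∨ (0 < A' ∧ A' * HD.ex (finrank ℚ k) m < m - 1) ∨ (m = 2 ∧ A' < 2)) (A B : ℝ)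
    (hA : A < (1 - 1 / (N : ℝ)) * f₁.natDegree + A') :
    ∃ C δ : ℝ, 0 < δ ∧ ∀ T : ℝ, 0 ≤ T →
      {P ∈ Cov k (f₁ * f₂) N m T | HD.logDiscr P ≤ A * AA.height P.1 + B}.Finite ∧
      ({P ∈ Cov k (f₁ * f₂) N m T | HD.logDiscr P ≤ A * AA.height P.1 + B}.ncard : ℝ) ≤
        C * Real.exp ((m + 1 - δ) * (finrank ℚ k * m) * T) :=
  viol_of k f₁ f₂ hf N m hN hm hD A' (discLow k m A' hA') A B hA

/-- **The height inequality for almost all points.** -/
theorem q1_all (k : Type) [Field k] [NumberField k] {r : ℕ} (p : Fin r → ℕ)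
    [∀ t, Fact (p t).Prime] (hp : Function.Injective p) (g : k[X]) (hg : Squarefree g) (q : ℕ)
    (hq : q = g.natDegree ∨ q = g.natDegree + 1) (f₁ f₂ : k[X]) (hf : Squarefree (f₁ * f₂))
    (N m : ℕ) (hN : 1 ≤ N) (hm : 1 ≤ m)
    (hD : ∀ g : k[X], Irreducible g → g ∣ f₁ → g.natDegree ≤ 2 * m + 1) (A' : ℝ)
    (hA' : A' = 0 ∨ (0 < A' ∧ A' * HD.ex (finrank ℚ k) m < m - 1) ∨ (m = 2 ∧ A' < 2)) (A ε : ℝ)
    (hA : A - ε < (1 - 1 / (N : ℝ)) * f₁.natDegree + A') :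
    ∃ C δ : ℝ, 0 < δ ∧ ∀ T : ℝ, 0 ≤ T →
      {P ∈ Cov k (f₁ * f₂) N m T | aeval P.1 g ≠ 0 ∧ HD.logDiscr P + ε * AA.height P.1 <
          AA.proximity p g q P.1 + A * AA.height P.1}.Finite ∧
      ({P ∈ Cov k (f₁ * f₂) N m T | aeval P.1 g ≠ 0 ∧ HD.logDiscr P + ε * AA.height P.1 <
          AA.proximity p g q P.1 + A * AA.height P.1}.ncard : ℝ) ≤
        C * Real.exp ((m + 1 - δ) * (finrank ℚ k * m) * T) :=
  q1_of k p hp g hg q hq f₁ f₂ hf N m hN hm hD A' (discLow k m A' hA') A ε hA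

end Pool.Agent.SFD
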