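import Pool.Agent.SS.Disc
import Pool.Agent.HD.Viol

/-!
# The field of a point of a superelliptic curve
-/

set_option autoImplicit false

open Polynomial NumberField IntermediateField Module

namespace Pool.Agent.SFD

section deg

variable {k Ω : Type} [Field k] [Field Ω] [Algebra k Ω]

/-- the field `k(x, y)` as an extension of `k(x)` -/
theorem restrict_pair (x y : Ω) :
    (IntermediateField.adjoin (IntermediateField.adjoin k {x}) {y}).restrictScalars k =
      IntermediateField.adjoin k {x, y} := by
  rw [IntermediateField.adjoin_adjoin_left]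
  rfl

/-- the degree of a field generated by a root -/
theorem finrank_root_le {L : Type} [Field L] [Algebra L Ω] (N : ℕ) (hN : 1 ≤ N) (b : L) (y : Ω)
    (hy : y ^ N = algebraMap L Ω b) : finrank L (IntermediateField.adjoin L {y}) ≤ N := by
  set m : L[X] := X ^ N - C b with hm
  have hN0 : N ≠ 0 := by omega
  have hmon : m.Monic := monic_X_pow_sub_C b hN0
  have hdm : m.natDegree = N := natDegree_X_pow_sub_C
  have hm0 : aeval y m = 0 := by
    rw [hm, map_sub, map_pow, aeval_X, aeval_C, hy, sub_self]
  have hint : IsIntegral L y := ⟨m, hmon, by rw [← aeval_def, hm0]⟩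
  rw [IntermediateField.adjoin.finrank hint]
  conv_rhs => rw [← hdm]
  exact natDegree_le_of_dvd (minpoly.dvd L y hm0) hmon.ne_zero

end deg

variable {k : Type} [Field k] [NumberField k]

/-- The discriminant of the field of a point. -/
theorem disc_point {r : ℕ} (fs : Fin r → (𝓞 k)[X])
    (hsq : Squarefree ((∏ i, fs i).map (algebraMap (𝓞 k) k))) (N : ℕ) (hN : 1 ≤ N) :
    ∃ C : ℝ, ∀ P : AlgebraicClosure k × AlgebraicClosure k,
      P.2 ^ N = aeval P.1 ((∏ i, fs i).map (algebraMap (𝓞 k) k)) →
      aeval P.1 ((∏ i, fs i).map (algebraMap (𝓞 k) k)) ≠ 0 →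
      (1 - 1 / (N : ℝ)) * (∑ i, Real.log (SS.sq (Ideal.absNorm (SS.zid
        (aeval (AdjoinSimple.gen k P.1) ((fs i).map (algebraMap (𝓞 k) k))) (fs i).natDegree
        (AdjoinSimple.gen k P.1))))) / finrank ℚ (IntermediateField.adjoin k {P.1}) +
        AA.logDiscr P.1 ≤ HD.logDiscr P + C ∧
      (C < ∑ i, Real.log (SS.sq (Ideal.absNorm (SS.zid
        (aeval (AdjoinSimple.gen k P.1) ((fs i).map (algebraMap (𝓞 k) k))) (fs i).natDegree
        (AdjoinSimple.gen k P.1)))) →
        finrank k (IntermediateField.adjoin k {P.1, P.2}) =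
          finrank k (IntermediateField.adjoin k {P.1}) * N) := by
  classical
  obtain ⟨C, hC, hdisc⟩ := SS.disc_ge' k fs hsq N hN
  refine ⟨|Real.log C|, fun P hP hP0 => ?_⟩
  set L := IntermediateField.adjoin k {P.1} with hL
  set ξ : L := AdjoinSimple.gen k P.1 with hξ
  set f : k[X] := (∏ i, fs i).map (algebraMap (𝓞 k) k) with hf
  set K' := IntermediateField.adjoin L {P.2} with hK'
  have hval : algebraMap L (AlgebraicClosure k) (aeval ξ f) = aeval P.1 f := by
    rw [← aeval_algebraMap_apply]
    rfl
  have hint : IsIntegral L P.2 := Algebra.IsIntegral.isIntegral P.2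
  have hfd : FiniteDimensional L K' := IntermediateField.adjoin.finiteDimensional hint
  have hnf : NumberField K' := NumberField.of_module_finite L K'
  have hNK : finrank L K' ≤ N := finrank_root_le N hN (aeval ξ f) P.2 (by rw [hval]; exact hP)
  have hK0 : 0 < finrank L K' := finrank_pos
  have hL0 : 0 < finrank ℚ L := finrank_pos
  obtain ⟨h1, hdeg⟩ := hdisc L K' ξ (AdjoinSimple.gen L P.2) (by
      apply (algebraMap K' (AlgebraicClosure k)).injective
      rw [map_pow, AdjoinSimple.algebraMap_gen, hP, ← hval]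
      rfl) (by
      intro h
      apply hP0
      rw [← hval, h, map_zero])
  set a : Fin r → ℕ := fun i => SS.sq (Ideal.absNorm (SS.zid
        (aeval ξ ((fs i).map (algebraMap (𝓞 k) k))) (fs i).natDegree ξ)) with ha
  have ha1 : ∀ i, (1 : ℝ) ≤ a i := fun i => by exact_mod_cast SS.sq_pos _
  have hdL : (1 : ℝ) ≤ |(discr L : ℝ)| := by
    have : (1 : ℤ) ≤ |discr L| := Int.one_le_abs (discr_ne_zero L)
    exact_mod_cast this
  have hdK : (1 : ℝ) ≤ |(discr K' : ℝ)| := by
    have : (1 : ℤ) ≤ |discr K'| := Int.one_le_abs (discr_ne_zero K')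
    exact_mod_cast this
  have hprod : (0 : ℝ) < ∏ i, (a i : ℝ) := Finset.prod_pos fun i _ => by
    have := ha1 i
    linarith
  have h2 : (N - 1 : ℕ) * ∑ i, Real.log (a i) + finrank L K' * Real.log |(discr L : ℝ)| ≤
      Real.log C + Real.log |(discr K' : ℝ)| := by
    have h3 := Real.log_le_log (by positivity) h1
    rw [Real.log_mul (by positivity) (by positivity), Real.log_pow, Real.log_pow,
      Real.log_prod (fun i _ => (by have := ha1 i; linarith : (0 : ℝ) < a i).ne'),
      Real.log_mul hC.ne' (by positivity)] at h3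
    exact h3
  have hS : 0 ≤ ∑ i, Real.log (a i) := Finset.sum_nonneg fun i _ => Real.log_nonneg (ha1 i)
  have hmul : (finrank ℚ K' : ℝ) = finrank ℚ L * finrank L K' := by
    have := finrank_mul_finrank ℚ L K'
    exact_mod_cast this.symm
  -- comparison with the field of the point
  have hle : SST.logDisc K' ≤ HD.logDiscr P := by
    have hmem : ∀ z : K', (z : AlgebraicClosure k) ∈ IntermediateField.adjoin k {P.1, P.2} := by
      intro z
      rw [← restrict_pair]
      exact z.2
    let F : K' →+* IntermediateField.adjoin k {P.1, P.2} :=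
      { toFun := fun z => ⟨z, hmem z⟩
        map_one' := rfl
        map_mul' := fun _ _ => rfl
        map_zero' := rfl
        map_add' := fun _ _ => rfl }
    let : Algebra K' (IntermediateField.adjoin k {P.1, P.2}) := F.toAlgebra
    exact HD.logDisc_le_of_algebra _ _
  have hgoal : (1 - 1 / (N : ℝ)) * (∑ i, Real.log (a i)) / finrank ℚ L + AA.logDiscr P.1 ≤
      SST.logDisc K' + |Real.log C| := by
    have hn0 : (0 : ℝ) < N := by exact_mod_cast hN
    have hl0 : (0 : ℝ) < finrank ℚ L := by exact_mod_cast hL0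
    have hk0 : (0 : ℝ) < finrank L K' := by exact_mod_cast hK0
    have hk1 : (1 : ℝ) ≤ finrank L K' := by exact_mod_cast hK0
    have hl1 : (1 : ℝ) ≤ finrank ℚ L := by exact_mod_cast hL0
    have hkN : (finrank L K' : ℝ) ≤ N := by exact_mod_cast hNK
    have e1 : (1 - 1 / (N : ℝ)) * (∑ i, Real.log (a i)) / finrank ℚ L ≤
        (N - 1 : ℕ) * (∑ i, Real.log (a i)) / (finrank ℚ L * finrank L K') := by
      rw [div_le_div_iff₀ hl0 (by positivity)]
      have e2 : ((N - 1 : ℕ) : ℝ) = N - 1 := by
        rw [Nat.cast_sub hN, Nat.cast_one]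
      rw [e2]
      have e3 : (1 - 1 / (N : ℝ)) * finrank L K' ≤ N - 1 := by
        have e4 : (1 - 1 / (N : ℝ)) * N = N - 1 := by field_simp
        rw [← e4]
        refine mul_le_mul_of_nonneg_left hkN ?_
        have : 1 / (N : ℝ) ≤ 1 := by
          rw [div_le_one hn0]
          exact_mod_cast hN
        linarith
      calc (1 - 1 / (N : ℝ)) * (∑ i, Real.log (a i)) * (finrank ℚ L * finrank L K') =
          ((1 - 1 / (N : ℝ)) * finrank L K') * ((∑ i, Real.log (a i)) * finrank ℚ L) := by ring
        _ ≤ ((N : ℝ) - 1) * ((∑ i, Real.log (a i)) * finrank ℚ L) :=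
          mul_le_mul_of_nonneg_right e3 (by positivity)
        _ = _ := by ring
    have e5 : AA.logDiscr P.1 = finrank L K' * Real.log |(discr L : ℝ)| /
        (finrank ℚ L * finrank L K') := by
      unfold AA.logDiscr SST.logDisc
      rw [div_eq_div_iff hl0.ne' (by positivity)]
      ring
    have e6 : SST.logDisc K' = Real.log |(discr K' : ℝ)| / (finrank ℚ L * finrank L K') := by
      unfold SST.logDisc
      rw [hmul]
    have e7 : Real.log C / (finrank ℚ L * finrank L K') ≤ |Real.log C| := by
      rw [div_le_iff₀ (by positivity)]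
      have e8 : (1 : ℝ) ≤ finrank ℚ L * finrank L K' := by nlinarith
      calc Real.log C ≤ |Real.log C| * 1 := by rw [mul_one]; exact le_abs_self _
        _ ≤ _ := mul_le_mul_of_nonneg_left e8 (abs_nonneg _)
    calc (1 - 1 / (N : ℝ)) * (∑ i, Real.log (a i)) / finrank ℚ L + AA.logDiscr P.1
        ≤ (N - 1 : ℕ) * (∑ i, Real.log (a i)) / (finrank ℚ L * finrank L K') +
          finrank L K' * Real.log |(discr L : ℝ)| / (finrank ℚ L * finrank L K') := by
          rw [e5]
          exact add_le_add_left e1 _
      _ = ((N - 1 : ℕ) * ∑ i, Real.log (a i) + finrank L K' * Real.log |(discr L : ℝ)|) /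
          (finrank ℚ L * finrank L K') := by rw [add_div]
      _ ≤ (Real.log C + Real.log |(discr K' : ℝ)|) / (finrank ℚ L * finrank L K') :=
          div_le_div_of_nonneg_right h2 (by positivity)
      _ = Real.log C / (finrank ℚ L * finrank L K') + SST.logDisc K' := by rw [add_div, e6]
      _ ≤ |Real.log C| + SST.logDisc K' := add_le_add_left e7 _
      _ = _ := add_comm _ _
  refine ⟨by linarith, fun hbig => ?_⟩
  have g1 : C < ∏ i, (a i : ℝ) := by
    rw [← Real.log_lt_log_iff hC hprod,
      Real.log_prod (fun i _ => (by have := ha1 i; linarith : (0 : ℝ) < a i).ne')]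
    exact lt_of_le_of_lt (le_abs_self _) hbig
  have g2 : finrank L K' = N := le_antisymm hNK (hdeg g1)
  have g3 : finrank k K' = finrank k L * finrank L K' := (finrank_mul_finrank k L K').symm
  rw [← restrict_pair, ← g2, ← g3]
  rfl

end Pool.Agent.SFD
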