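import Pool.Agent.SFD.GoodX
import Pool.Agent.SFD.Tower
import Pool.Agent.HD.Q1

/-!
# Superelliptic curves: almost all points have a large discriminant
-/

set_option autoImplicit false

open Polynomial NumberField IntermediateField Module Pool.Agent.RefW

namespace Pool.Agent.SFD

/-- Almost all points `x` of degree `m` satisfy `d(x) ≥ A' h(x)`, with a power saving. -/
def DiscLow (k : Type) [Field k] [NumberField k] (m : ℕ) (A' : ℝ) : Prop :=
  ∃ C δ : ℝ, 0 ≤ C ∧ 0 < δ ∧ ∀ T : ℝ, 0 ≤ T →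
    {x : AlgebraicClosure k | finrank k (IntermediateField.adjoin k {x}) = m ∧
      AA.height x ≤ T ∧ AA.logDiscr x < A' * AA.height x}.Finite ∧
    ({x : AlgebraicClosure k | finrank k (IntermediateField.adjoin k {x}) = m ∧
      AA.height x ≤ T ∧ AA.logDiscr x < A' * AA.height x}.ncard : ℝ) ≤
      C * Real.exp ((m + 1 - δ) * (finrank ℚ k * m) * T)

/-- the points with a field `k(x)` of small discriminant -/
theorem disc_x (k : Type) [Field k] [NumberField k] (m : ℕ) (A' : ℝ)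
    (hA' : A' = 0 ∨ (0 < A' ∧ A' * HD.ex (finrank ℚ k) m < m - 1)) : DiscLow k m A' := by
  rcases hA' with h0 | ⟨hA0, hA1⟩
  · refine ⟨0, 1, le_rfl, one_pos, fun T _ => ?_⟩
    have he : {x : AlgebraicClosure k | finrank k (IntermediateField.adjoin k {x}) = m ∧
        AA.height x ≤ T ∧ AA.logDiscr x < A' * AA.height x} = ∅ := by
      rw [Set.eq_empty_iff_forall_notMem]
      rintro x ⟨-, -, h⟩
      rw [h0, zero_mul] at h
      have h1 : 0 ≤ AA.logDiscr x := AA.UpperAux.logDisc_nonneg _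
      linarith
    rw [he, Set.ncard_empty, Nat.cast_zero, zero_mul]
    exact ⟨Set.finite_empty, le_rfl⟩
  · have key : ∀ N : ℕ, 0 < N → ∃ C : ℝ, 1 ≤ C ∧ ∀ (K : Type) [Field K] [NumberField K],
        finrank ℚ K = N → ∀ T : ℝ, 0 ≤ T →
        {x : K | (False → IsIntegral ℤ x) ∧ SST.ht K x ≤ T}.Finite ∧
        ({x : K | (False → IsIntegral ℤ x) ∧ SST.ht K x ≤ T}.ncard : ℝ) ≤
          C * Real.exp (2 * N * T) := by
      intro N hN
      obtain ⟨C, hC, h⟩ := HD.card_height_le N hN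
      refine ⟨C, hC, fun K _ _ hK T hT => ?_⟩
      simp only [false_imp_iff, true_and]
      exact h K hK T hT
    obtain ⟨C, hC, h⟩ := HD.badX_le k False 2 zero_le_two key A' 0 hA0.le le_rfl m
    refine ⟨C, (m : ℝ) - 1 - A' * HD.ex (finrank ℚ k) m, hC, by linarith, fun T hT => ?_⟩
    obtain ⟨h1, h2⟩ := h T hT
    have hsub : {x : AlgebraicClosure k | finrank k (IntermediateField.adjoin k {x}) = m ∧
        AA.height x ≤ T ∧ AA.logDiscr x < A' * AA.height x} ⊆ HD.badX k False A' 0 m T := by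
      rintro x ⟨h3, h4, h5⟩
      exact ⟨fun h => h.elim, h3.le, h4, by linarith⟩
    refine ⟨h1.subset hsub, ?_⟩
    have h3 : (m : ℝ) + 1 - ((m : ℝ) - 1 - A' * HD.ex (finrank ℚ k) m) =
        A' * HD.ex (finrank ℚ k) m + 2 := by ring
    rw [h3]
    exact (Nat.cast_le.2 (Set.ncard_le_ncard hsub h1)).trans h2

/-- The points `P = (x, y)` of `y ^ N = f(x)` with `[k(x) : k] = m` and of height at most `T`. -/
def Cov (k : Type) [Field k] [NumberField k] (f : k[X]) (N m : ℕ) (T : ℝ) :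
    Set (AlgebraicClosure k × AlgebraicClosure k) :=
  {P | P.2 ^ N = aeval P.1 f ∧ finrank k (IntermediateField.adjoin k {P.1}) = m ∧
    AA.height P.1 ≤ T}

/-- the points over a finite set of abscissas -/
theorem cov_fibre (k : Type) [Field k] [NumberField k] (f : k[X]) (N m : ℕ) (hN : 1 ≤ N) (T : ℝ)
    (V : Set (AlgebraicClosure k × AlgebraicClosure k)) (hV : V ⊆ Cov k f N m T)
    (U : Set (AlgebraicClosure k)) (hU : U.Finite) (hVU : ∀ P ∈ V, P.1 ∈ U) :
    V.Finite ∧ (V.ncard : ℝ) ≤ U.ncard * N := by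
  classical
  have hN0 : N ≠ 0 := by omega
  refine AA.UpperAux.ncard_le_of_fiber V Prod.fst U hU hVU N fun x _ => ?_
  have hsub : V ∩ Prod.fst ⁻¹' {x} ⊆
      (fun y => (x, y)) '' (((X ^ N - Polynomial.C (aeval x f) :
        (AlgebraicClosure k)[X]).roots.toFinset : Finset (AlgebraicClosure k)) :
          Set (AlgebraicClosure k)) := by
    rintro P ⟨hP, hPx⟩
    have hPx' : P.1 = x := hPx
    have hP1 := (hV hP).1
    refine ⟨P.2, ?_, ?_⟩
    · rw [Finset.mem_coe, Multiset.mem_toFinset,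
        mem_roots (monic_X_pow_sub_C _ hN0).ne_zero, IsRoot.def, eval_sub, eval_pow,
        eval_X, eval_C, hP1, hPx', sub_self]
    · rw [← hPx']
  have hfin : ((fun y => (x, y)) '' (((X ^ N - Polynomial.C (aeval x f) :
      (AlgebraicClosure k)[X]).roots.toFinset : Finset (AlgebraicClosure k)) :
        Set (AlgebraicClosure k))).Finite := (Finset.finite_toSet _).image _
  refine ⟨hfin.subset hsub, ?_⟩
  have h6 : (V ∩ Prod.fst ⁻¹' {x}).ncard ≤ N := by
    refine (Set.ncard_le_ncard hsub hfin).trans ?_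
    refine (Set.ncard_image_le (Finset.finite_toSet _)).trans ?_
    rw [Set.ncard_coe_finset]
    refine (Multiset.toFinset_card_le _).trans ((card_roots' _).trans ?_)
    rw [natDegree_X_pow_sub_C]
  exact_mod_cast h6

/-- the points of bounded degree and height -/
theorem bounded_finite (k : Type) [Field k] [NumberField k] (m : ℕ) (hm : 1 ≤ m) (T : ℝ)
    (hT : 0 ≤ T) : {x : AlgebraicClosure k |
      finrank k (IntermediateField.adjoin k {x}) = m ∧ AA.height x ≤ T}.Finite := by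
  let p : Fin 0 → ℕ := fun t => t.elim0
  have hpp : ∀ t, Fact (p t).Prime := fun t => t.elim0
  have hpi : Function.Injective p := fun t => t.elim0
  obtain ⟨C₁, h₁⟩ := TW.near_all_one k p hpi (1 : k[X]) squarefree_one 0
    (Or.inl natDegree_one.symm) m hm 0 1 le_rfl (by norm_num) one_pos
  refine (h₁ (Real.exp (finrank ℚ k * m * T)) (Real.one_le_exp (by positivity))).1.subset ?_
  rintro x ⟨h1, h2⟩
  refine ⟨h1, ?_, ?_, ?_⟩
  · rw [relHeight_eq x m h1]
    exact Real.exp_le_exp.2 (mul_le_mul_of_nonneg_left h2 (by positivity))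
  · rw [map_one]
    exact one_ne_zero
  · rw [zero_mul]
    unfold AA.proximity SST.proxK
    simp

theorem height_nonneg {k : Type} [Field k] [NumberField k] (x : AlgebraicClosure k) :
    0 ≤ AA.height x := by
  unfold AA.height SST.ht
  exact div_nonneg (Height.zero_le_logHeight₁ _) (Nat.cast_nonneg _)

/-- The number of points with a small discriminant. -/
theorem viol_fac (k : Type) [Field k] [NumberField k] {r : ℕ} (fs : Fin r → (𝓞 k)[X])
    (hsq : Squarefree ((∏ i, fs i).map (algebraMap (𝓞 k) k))) (N : ℕ) (hN : 1 ≤ N) (m : ℕ)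
    (hm : 1 ≤ m) (I : Finset (Fin r))
    (hI : ∀ i ∈ I, Irreducible ((fs i).map (algebraMap (𝓞 k) k)) ∧
      (fs i).natDegree ≤ 2 * m + 1) (A' : ℝ) (hA' : DiscLow k m A') (A B : ℝ)
    (hA : A < (1 - 1 / (N : ℝ)) * ∑ i ∈ I, ((fs i).natDegree : ℝ) + A') :
    ∃ C δ : ℝ, 0 < δ ∧ ∀ T : ℝ, 0 ≤ T →
      {P ∈ Cov k ((∏ i, fs i).map (algebraMap (𝓞 k) k)) N m T |
        HD.logDiscr P ≤ A * AA.height P.1 + B}.Finite ∧
      ({P ∈ Cov k ((∏ i, fs i).map (algebraMap (𝓞 k) k)) N m T |
        HD.logDiscr P ≤ A * AA.height P.1 + B}.ncard : ℝ) ≤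
        C * Real.exp ((m + 1 - δ) * (finrank ℚ k * m) * T) := by
  classical
  set f : k[X] := (∏ i, fs i).map (algebraMap (𝓞 k) k) with hf
  set d := finrank ℚ k with hd
  have hN1 : (1 : ℝ) ≤ N := by exact_mod_cast hN
  have hα0 : 0 ≤ 1 - 1 / (N : ℝ) := by
    have : 1 / (N : ℝ) ≤ 1 := by
      rw [div_le_one (by linarith)]
      exact hN1
    linarith
  have hα1 : 1 - 1 / (N : ℝ) ≤ 1 := by
    have : 0 ≤ 1 / (N : ℝ) := by positivity
    linarith
  set gap : ℝ := (1 - 1 / (N : ℝ)) * ∑ i ∈ I, ((fs i).natDegree : ℝ) + A' - A with hgap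
  have hgap0 : 0 < gap := by rw [hgap]; linarith
  set κ : ℝ := gap / (2 * (I.card + 1)) with hκ
  have hκ0 : 0 < κ := by positivity
  have hκI : κ * I.card ≤ gap / 2 := by
    rw [hκ, div_mul_eq_mul_div, div_le_div_iff₀ (by positivity) two_pos]
    have : (0 : ℝ) ≤ I.card := Nat.cast_nonneg _
    nlinarith
  have h1 : ∀ i : Fin r, ∃ C δ : ℝ, 0 ≤ C ∧ 0 < δ ∧ (i ∈ I → ∀ T : ℝ, 0 ≤ T →
      {x : AlgebraicClosure k | finrank k (IntermediateField.adjoin k {x}) = m ∧
        AA.height x ≤ T ∧ aeval x ((fs i).map (algebraMap (𝓞 k) k)) ≠ 0 ∧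
        Real.log (sqx (fs i) x) < finrank ℚ (IntermediateField.adjoin k {x}) *
          (((fs i).natDegree - κ) * AA.height x)}.Finite ∧
      ({x : AlgebraicClosure k | finrank k (IntermediateField.adjoin k {x}) = m ∧
        AA.height x ≤ T ∧ aeval x ((fs i).map (algebraMap (𝓞 k) k)) ≠ 0 ∧
        Real.log (sqx (fs i) x) < finrank ℚ (IntermediateField.adjoin k {x}) *
          (((fs i).natDegree - κ) * AA.height x)}.ncard : ℝ) ≤
        C * Real.exp ((m + 1 - δ) * (finrank ℚ k * m) * T)) := by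
    intro i
    by_cases hi : i ∈ I
    · obtain ⟨C, δ, h1, h2, h3⟩ := good_x k (fs i) (hI i hi).1 m hm (hI i hi).2 κ hκ0
      exact ⟨C, δ, h1, h2, fun _ => h3⟩
    · exact ⟨0, 1, le_rfl, one_pos, fun h => absurd h hi⟩
  choose C₁ δ₁ hC₁ hδ₁ hgood using h1
  obtain ⟨C₂, δ₂, hC₂, hδ₂, hdisc⟩ := hA'
  obtain ⟨C₃, hpt⟩ := disc_point fs hsq N hN
  set h₀ : ℝ := 2 * (|B| + |C₃|) / gap with hh₀
  have hh₀0 : 0 ≤ h₀ := by positivity
  set μ : ℝ := (1 + ∑ i, (δ₁ i)⁻¹)⁻¹ with hμ
  have hsum0 : 0 ≤ ∑ i, (δ₁ i)⁻¹ := Finset.sum_nonneg fun i _ => (inv_pos.2 (hδ₁ i)).le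
  have hμ0 : 0 < μ := by positivity
  have hμ1 : μ ≤ 1 := by
    rw [hμ]
    exact inv_le_one_of_one_le₀ (by linarith)
  have hμi : ∀ i, μ ≤ δ₁ i := by
    intro i
    have h1 : (δ₁ i)⁻¹ ≤ ∑ i, (δ₁ i)⁻¹ :=
      Finset.single_le_sum (f := fun i => (δ₁ i)⁻¹) (fun i _ => (inv_pos.2 (hδ₁ i)).le)
        (Finset.mem_univ i)
    rw [hμ, inv_le_comm₀ (by positivity) (hδ₁ i)]
    linarith
  set δ : ℝ := min δ₂ μ with hδ
  have hδ0 : 0 < δ := lt_min hδ₂ hμ0
  have hδμ : δ ≤ μ := min_le_right _ _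
  have hf0 : f ≠ 0 := hsq.ne_zero
  have hHf := bounded_finite k m hm h₀ hh₀0
  set H : Set (AlgebraicClosure k) := {x : AlgebraicClosure k |
      finrank k (IntermediateField.adjoin k {x}) = m ∧ AA.height x ≤ h₀} with hH
  set Rt : Set (AlgebraicClosure k) := {x | aeval x f = 0} with hRt
  have hinj : Function.Injective (algebraMap k (AlgebraicClosure k)) :=
    (algebraMap k (AlgebraicClosure k)).injective
  have hRsub : Rt ⊆ ((f.map (algebraMap k (AlgebraicClosure k))).roots.toFinset :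
      Set (AlgebraicClosure k)) := by
    intro x hx
    rw [Finset.mem_coe, Multiset.mem_toFinset, mem_roots ((Polynomial.map_ne_zero_iff hinj).2 hf0),
      IsRoot.def, eval_map_algebraMap]
    exact hx
  have hRf : Rt.Finite := (Finset.finite_toSet _).subset hRsub
  refine ⟨(Rt.ncard + H.ncard + C₂ + ∑ i ∈ I, C₁ i) * N, δ, hδ0, fun T hT => ?_⟩
  set E : ℝ := Real.exp ((m + 1 - δ) * (d * m) * T) with hE
  have hm0 : (0 : ℝ) ≤ m := Nat.cast_nonneg _
  have hE1 : 1 ≤ E := by
    refine Real.one_le_exp ?_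
    have : 0 ≤ (m : ℝ) + 1 - δ := by linarith
    positivity
  have hEmono : ∀ δ' : ℝ, δ ≤ δ' → Real.exp ((m + 1 - δ') * (d * m) * T) ≤ E := by
    intro δ' h
    refine Real.exp_le_exp.2 ?_
    refine mul_le_mul_of_nonneg_right (mul_le_mul_of_nonneg_right (by linarith) (by positivity))
      hT
  obtain ⟨fD, cD⟩ := hdisc T hT
  set D : Set (AlgebraicClosure k) := {x : AlgebraicClosure k |
      finrank k (IntermediateField.adjoin k {x}) = m ∧
        AA.height x ≤ T ∧ AA.logDiscr x < A' * AA.height x} with hD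
  let S : Fin r → Set (AlgebraicClosure k) := fun i =>
    {x : AlgebraicClosure k | finrank k (IntermediateField.adjoin k {x}) = m ∧
        AA.height x ≤ T ∧ aeval x ((fs i).map (algebraMap (𝓞 k) k)) ≠ 0 ∧
        Real.log (sqx (fs i) x) < finrank ℚ (IntermediateField.adjoin k {x}) *
          (((fs i).natDegree - κ) * AA.height x)}
  have fS : ∀ i ∈ I, (S i).Finite := fun i hi => (hgood i hi T hT).1
  have cS : ∀ i ∈ I, ((S i).ncard : ℝ) ≤ C₁ i * E := fun i hi =>
    ((hgood i hi T hT).2).trans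
      (mul_le_mul_of_nonneg_left (hEmono _ (hδμ.trans (hμi i))) (hC₁ i))
  set U : Set (AlgebraicClosure k) := (Rt ∪ H) ∪ (D ∪ ⋃ i ∈ I, S i) with hU
  have fU : U.Finite := (hRf.union hHf).union (fD.union (Set.Finite.biUnion I.finite_toSet fS))
  have cU : (U.ncard : ℝ) ≤ (Rt.ncard + H.ncard + C₂ + ∑ i ∈ I, C₁ i) * E := by
    have g1 : U.ncard ≤ (Rt.ncard + H.ncard) + (D.ncard + ∑ i ∈ I, (S i).ncard) :=
      (Set.ncard_union_le _ _).trans (add_le_add (Set.ncard_union_le _ _)
        ((Set.ncard_union_le _ _).trans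
          (Nat.add_le_add_left (Finset.set_ncard_biUnion_le _ _) _)))
    have g2 : (U.ncard : ℝ) ≤ (Rt.ncard + H.ncard) + (D.ncard + ∑ i ∈ I, ((S i).ncard : ℝ)) := by
      exact_mod_cast g1
    have g3 : ∑ i ∈ I, ((S i).ncard : ℝ) ≤ ∑ i ∈ I, C₁ i * E := Finset.sum_le_sum cS
    rw [← Finset.sum_mul] at g3
    have g4 : (D.ncard : ℝ) ≤ C₂ * E :=
      cD.trans (mul_le_mul_of_nonneg_left (hEmono _ (min_le_left _ _)) hC₂)
    have g5 : (Rt.ncard : ℝ) + H.ncard ≤ (Rt.ncard + H.ncard) * E :=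
      le_mul_of_one_le_right (by positivity) hE1
    calc (U.ncard : ℝ) ≤ (Rt.ncard + H.ncard) + (D.ncard + ∑ i ∈ I, ((S i).ncard : ℝ)) := g2
      _ ≤ (Rt.ncard + H.ncard) * E + (C₂ * E + (∑ i ∈ I, C₁ i) * E) :=
          add_le_add g5 (add_le_add g4 g3)
      _ = _ := by ring
  obtain ⟨fV, cV⟩ := cov_fibre k f N m hN T
    {P ∈ Cov k f N m T | HD.logDiscr P ≤ A * AA.height P.1 + B} (fun P hP => hP.1) U fU (by
      rintro P ⟨⟨hP1, hP2, hP3⟩, hP4⟩
      by_contra hcon
      simp only [hU, Set.mem_union, not_or, Set.mem_iUnion, not_exists] at hcon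
      obtain ⟨⟨n1, n2⟩, n3, n4⟩ := hcon
      have hfx : aeval P.1 f ≠ 0 := n1
      have hh : h₀ < AA.height P.1 := by
        by_contra g
        exact n2 ⟨hP2, not_lt.1 g⟩
      have hdx : A' * AA.height P.1 ≤ AA.logDiscr P.1 := by
        by_contra g
        exact n3 ⟨hP2, hP3, not_le.1 g⟩
      have g1 := (hpt P hP1 hfx).1
      have hl0 : (0 : ℝ) < finrank ℚ (IntermediateField.adjoin k {P.1}) := by
        have : 0 < finrank ℚ (IntermediateField.adjoin k {P.1}) := finrank_pos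
        exact_mod_cast this
      have hfi : ∀ i, aeval P.1 ((fs i).map (algebraMap (𝓞 k) k)) ≠ 0 := by
        intro i h
        apply hfx
        rw [hf, Polynomial.map_prod, map_prod]
        exact Finset.prod_eq_zero (Finset.mem_univ i) h
      have g2 : ∀ i ∈ I, finrank ℚ (IntermediateField.adjoin k {P.1}) *
          (((fs i).natDegree - κ) * AA.height P.1) ≤ Real.log (sqx (fs i) P.1) := by
        intro i hi
        by_contra g
        exact n4 i hi ⟨hP2, hP3, hfi i, not_le.1 g⟩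
      have g3 : (finrank ℚ (IntermediateField.adjoin k {P.1}) : ℝ) *
          ((∑ i ∈ I, ((fs i).natDegree : ℝ) - κ * I.card) * AA.height P.1) ≤
          ∑ i, Real.log (sqx (fs i) P.1) := by
        calc (finrank ℚ (IntermediateField.adjoin k {P.1}) : ℝ) *
              ((∑ i ∈ I, ((fs i).natDegree : ℝ) - κ * I.card) * AA.height P.1) =
            ∑ i ∈ I, finrank ℚ (IntermediateField.adjoin k {P.1}) *
              (((fs i).natDegree - κ) * AA.height P.1) := by
              rw [← Finset.mul_sum, ← Finset.sum_mul, Finset.sum_sub_distrib, Finset.sum_const,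
                nsmul_eq_mul, mul_comm κ]
          _ ≤ ∑ i ∈ I, Real.log (sqx (fs i) P.1) := Finset.sum_le_sum g2
          _ ≤ ∑ i, Real.log (sqx (fs i) P.1) := by
              refine Finset.sum_le_sum_of_subset_of_nonneg (Finset.subset_univ _)
                fun i _ _ => Real.log_nonneg ?_
              have : 1 ≤ sqx (fs i) P.1 := SS.sq_pos _
              exact_mod_cast this
      have g4 : (1 - 1 / (N : ℝ)) *
          ((∑ i ∈ I, ((fs i).natDegree : ℝ) - κ * I.card) * AA.height P.1) ≤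
          (1 - 1 / (N : ℝ)) * (∑ i, Real.log (sqx (fs i) P.1)) /
            finrank ℚ (IntermediateField.adjoin k {P.1}) := by
        rw [le_div_iff₀ hl0]
        calc _ = (1 - 1 / (N : ℝ)) * ((finrank ℚ (IntermediateField.adjoin k {P.1}) : ℝ) *
            ((∑ i ∈ I, ((fs i).natDegree : ℝ) - κ * I.card) * AA.height P.1)) := by ring
          _ ≤ _ := mul_le_mul_of_nonneg_left g3 hα0
      have g5 : (1 - 1 / (N : ℝ)) * (∑ i, Real.log (sqx (fs i) P.1)) /
            finrank ℚ (IntermediateField.adjoin k {P.1}) + AA.logDiscr P.1 ≤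
            HD.logDiscr P + C₃ := g1
      have hhn : 0 ≤ AA.height P.1 := height_nonneg _
      have g6 : (1 - 1 / (N : ℝ)) * (κ * I.card * AA.height P.1) ≤
          gap / 2 * AA.height P.1 := by
        calc (1 - 1 / (N : ℝ)) * (κ * I.card * AA.height P.1) ≤
            1 * (κ * I.card * AA.height P.1) :=
              mul_le_mul_of_nonneg_right hα1 (by positivity)
          _ = κ * I.card * AA.height P.1 := one_mul _
          _ ≤ _ := mul_le_mul_of_nonneg_right hκI hhn
      have g7 : gap * AA.height P.1 = (1 - 1 / (N : ℝ)) *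
          ((∑ i ∈ I, ((fs i).natDegree : ℝ)) * AA.height P.1) + A' * AA.height P.1 -
          A * AA.height P.1 := by
        rw [hgap]
        ring
      have g8 : gap / 2 * AA.height P.1 ≤ B + C₃ := by
        have e1 : (1 - 1 / (N : ℝ)) *
          ((∑ i ∈ I, ((fs i).natDegree : ℝ) - κ * I.card) * AA.height P.1) =
          (1 - 1 / (N : ℝ)) * ((∑ i ∈ I, ((fs i).natDegree : ℝ)) * AA.height P.1) -
          (1 - 1 / (N : ℝ)) * (κ * I.card * AA.height P.1) := by ring
        linarith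
      have g9 : gap / 2 * h₀ = |B| + |C₃| := by
        rw [hh₀]
        field_simp
      have g10 : gap / 2 * h₀ < gap / 2 * AA.height P.1 :=
        mul_lt_mul_of_pos_left hh (by positivity)
      linarith [le_abs_self B, le_abs_self C₃])
  refine ⟨fV, cV.trans ?_⟩
  calc (U.ncard : ℝ) * N ≤ ((Rt.ncard + H.ncard + C₂ + ∑ i ∈ I, C₁ i) * E) * N :=
        mul_le_mul_of_nonneg_right cU (Nat.cast_nonneg _)
    _ = _ := by ring

end Pool.Agent.SFD
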