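import Pool.Agent.SFD.SieveX
import Pool.Agent.TW.NearT

/-!
# The squarefree part of the norm of the ideal of the value is large
-/

set_option autoImplicit false

open Polynomial NumberField IntermediateField Module Pool.Agent.RefW

namespace Pool.Agent.SFD

/-- the squarefree part of the norm of the ideal of the value `φ(x)` -/
noncomputable def sqx {k : Type} [Field k] [NumberField k] (φ : (𝓞 k)[X])
    (x : AlgebraicClosure k) : ℕ :=
  SS.sq (Ideal.absNorm (SS.zid (aeval (AdjoinSimple.gen k x) (φ.map (algebraMap (𝓞 k) k)))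
    φ.natDegree (AdjoinSimple.gen k x)))

/-- the logarithm of the norm of the ideal of the value -/
theorem log_norm {k : Type} [Field k] [NumberField k] (p : Fin 0 → ℕ)
    [∀ t, Fact (p t).Prime] (φ : (𝓞 k)[X]) (x : AlgebraicClosure k)
    (hx : aeval x (φ.map (algebraMap (𝓞 k) k)) ≠ 0) :
    Real.log (Ideal.absNorm (SS.zid (aeval (AdjoinSimple.gen k x)
      (φ.map (algebraMap (𝓞 k) k))) φ.natDegree (AdjoinSimple.gen k x))) =
      finrank ℚ (IntermediateField.adjoin k {x}) * (φ.natDegree * AA.height x -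
        AA.proximity p (φ.map (algebraMap (𝓞 k) k)) φ.natDegree x) := by
  set L := IntermediateField.adjoin k {x} with hL
  set ξ : L := AdjoinSimple.gen k x with hξ
  set v : L := aeval ξ (φ.map (algebraMap (𝓞 k) k)) with hv
  have hv0 : v ≠ 0 := by
    intro h
    apply hx
    have h1 := congrArg (algebraMap L (AlgebraicClosure k)) h
    rw [map_zero, hv, ← aeval_algebraMap_apply] at h1
    exact h1
  have hint : ∀ j ∈ (RefW.denIdealOf ξ) ^ φ.natDegree, ∃ t : 𝓞 L, (t : L) = v * (j : L) := by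
    intro j hj
    obtain ⟨t, ht⟩ := SS.eval_integral (x := ξ) φ.natDegree
      (φ.map (algebraMap (𝓞 k) (𝓞 L))) natDegree_map_le j hj
    refine ⟨t, ?_⟩
    rw [ht, hv]
    congr 1
    rw [aeval_map_algebraMap, aeval_map_algebraMap]
  have h1 := SS.log_zid ξ φ.natDegree v hv0 hint
  have hn : (finrank ℚ L : ℝ) ≠ 0 := by
    have : 0 < finrank ℚ L := finrank_pos
    exact_mod_cast this.ne'
  rw [h1]
  unfold AA.height AA.proximity SST.ht SST.proxK
  rw [mul_sub, mul_div_cancel₀ _ hn]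
  have h2 : (finrank ℚ L : ℝ) * (φ.natDegree * (Height.logHeight₁ ξ / finrank ℚ L)) =
      φ.natDegree * Height.logHeight₁ ξ := by
    field_simp
  rw [h2]
  congr 1
  rw [Finset.univ_eq_empty (α := Fin 0), Finset.sum_empty, add_zero]
  refine Finset.sum_congr rfl fun σ _ => ?_
  have h3 : (0 : ℝ) < max 1 ‖σ ξ‖ := lt_of_lt_of_le one_pos (le_max_left _ _)
  rw [Real.log_div (by
    rw [norm_ne_zero_iff]
    exact (map_ne_zero σ).2 hv0) (by positivity), Real.log_pow]
  ring

theorem relHeight_eq {k : Type} [Field k] [NumberField k] (x : AlgebraicClosure k) (m : ℕ)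
    (hx : finrank k (IntermediateField.adjoin k {x}) = m) :
    AA.relHeight x = Real.exp (finrank ℚ k * m * AA.height x) := by
  have h2 : (finrank ℚ (IntermediateField.adjoin k {x}) : ℝ) = finrank ℚ k * m := by
    have := finrank_mul_finrank ℚ k (IntermediateField.adjoin k {x})
    rw [hx] at this
    exact_mod_cast this.symm
  have hn : (finrank ℚ (IntermediateField.adjoin k {x}) : ℝ) ≠ 0 := by
    have : 0 < finrank ℚ (IntermediateField.adjoin k {x}) := finrank_pos
    exact_mod_cast this.ne'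
  have hH1 : 1 ≤ Height.mulHeight₁ (AdjoinSimple.gen k x) := Height.one_le_mulHeight₁ _
  unfold AA.height SST.ht AA.relHeight
  rw [← h2, mul_div_cancel₀ _ hn, Height.logHeight₁_eq_log_mulHeight₁,
    Real.exp_log (lt_of_lt_of_le one_pos hH1)]

/-- For most points the squarefree part of the norm of the ideal of the value is large. -/
theorem good_x (k : Type) [Field k] [NumberField k] (φ : (𝓞 k)[X])
    (hφ : Irreducible (φ.map (algebraMap (𝓞 k) k))) (m : ℕ) (hm : 1 ≤ m)
    (hφm : φ.natDegree ≤ 2 * m + 1) (κ : ℝ) (hκ : 0 < κ) :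
    ∃ C δ : ℝ, 0 ≤ C ∧ 0 < δ ∧ ∀ T : ℝ, 0 ≤ T →
      {x : AlgebraicClosure k | finrank k (IntermediateField.adjoin k {x}) = m ∧
        AA.height x ≤ T ∧ aeval x (φ.map (algebraMap (𝓞 k) k)) ≠ 0 ∧
        Real.log (sqx φ x) < finrank ℚ (IntermediateField.adjoin k {x}) *
          ((φ.natDegree - κ) * AA.height x)}.Finite ∧
      ({x : AlgebraicClosure k | finrank k (IntermediateField.adjoin k {x}) = m ∧
        AA.height x ≤ T ∧ aeval x (φ.map (algebraMap (𝓞 k) k)) ≠ 0 ∧
        Real.log (sqx φ x) < finrank ℚ (IntermediateField.adjoin k {x}) *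
          ((φ.natDegree - κ) * AA.height x)}.ncard : ℝ) ≤
        C * Real.exp ((m + 1 - δ) * (finrank ℚ k * m) * T) := by
  classical
  let p : Fin 0 → ℕ := fun t => t.elim0
  have hpp : ∀ t, Fact (p t).Prime := fun t => t.elim0
  have hpi : Function.Injective p := fun t => t.elim0
  set d := finrank ℚ k with hd
  have hd0 : 0 < d := finrank_pos
  have hdm : (0 : ℝ) < d * m := by
    have h1 : (0 : ℝ) < d := by exact_mod_cast hd0
    have h2 : (0 : ℝ) < m := by exact_mod_cast hm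
    positivity
  have hm1 : (1 : ℝ) ≤ m := by exact_mod_cast hm
  set a : ℝ := min (κ / 2) 1 with ha
  have ha0 : 0 < a := lt_min (half_pos hκ) one_pos
  have ha1 : a ≤ 1 := min_le_right _ _
  have haκ : a ≤ κ / 2 := min_le_left _ _
  set κ₁ : ℝ := κ / 4 with hκ₁
  have hκ₁0 : 0 < κ₁ := by positivity
  obtain ⟨C₁, h₁⟩ := TW.near_all_one k p hpi (1 : k[X]) squarefree_one 0
    (Or.inl natDegree_one.symm) m hm 0 1 le_rfl (by norm_num) one_pos
  obtain ⟨C₂, h₂⟩ := TW.near_all_one k p hpi (φ.map (algebraMap (𝓞 k) k)) hφ.squarefree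
    φ.natDegree (Or.inl (natDegree_map_eq_of_injective RingOfIntegers.coe_injective φ).symm)
    m hm a (a / 2) ha0.le (by linarith) (half_pos ha0)
  obtain ⟨C₃, δ₃, hC₃, hδ₃, h₃⟩ := sieve_x k φ hφ m hφm
  set δ : ℝ := min (1 / 2) (min (a / 2) (κ₁ * δ₃)) with hδ
  have hδ0 : 0 < δ := lt_min (by norm_num) (lt_min (half_pos ha0) (by positivity))
  refine ⟨|C₁| + |C₂| + C₃, δ, by positivity, hδ0, fun T hT => ?_⟩
  set B : ℝ := Real.exp (d * m * T) with hB
  have hB1 : 1 ≤ B := Real.one_le_exp (by positivity)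
  have hB0 : 0 < B := lt_of_lt_of_le one_pos hB1
  have hBh1 : 1 ≤ B ^ ((1 : ℝ) / 2) := Real.one_le_rpow hB1 (by norm_num)
  have hZ1 : 1 ≤ B ^ κ₁ := Real.one_le_rpow hB1 hκ₁0.le
  set S := {x : AlgebraicClosure k | finrank k (IntermediateField.adjoin k {x}) = m ∧
        AA.height x ≤ T ∧ aeval x (φ.map (algebraMap (𝓞 k) k)) ≠ 0 ∧
        Real.log (sqx φ x) < finrank ℚ (IntermediateField.adjoin k {x}) *
          ((φ.natDegree - κ) * AA.height x)} with hS
  obtain ⟨f1, c1⟩ := h₁ (B ^ ((1 : ℝ) / 2)) hBh1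
  obtain ⟨f2, c2⟩ := h₂ B hB1
  obtain ⟨f3, c3⟩ := h₃ B (B ^ κ₁) hB1 hZ1
  set S₁ := {x : AlgebraicClosure k | finrank k (IntermediateField.adjoin k {x}) = m ∧
      AA.relHeight x ≤ B ^ ((1 : ℝ) / 2) ∧ aeval x (1 : k[X]) ≠ 0 ∧
      0 * AA.height x ≤ AA.proximity p (1 : k[X]) 0 x} with hS₁
  set S₂ := {x : AlgebraicClosure k | finrank k (IntermediateField.adjoin k {x}) = m ∧
      AA.relHeight x ≤ B ∧ aeval x (φ.map (algebraMap (𝓞 k) k)) ≠ 0 ∧
      a * AA.height x ≤ AA.proximity p (φ.map (algebraMap (𝓞 k) k)) φ.natDegree x} with hS₂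
  have hsub : S ⊆ S₁ ∪ (S₂ ∪ Bad k φ m B (B ^ κ₁)) := by
    rintro x ⟨hx, hxT, hφx, hlog⟩
    by_contra hcon
    rw [Set.mem_union, Set.mem_union, not_or, not_or] at hcon
    obtain ⟨n1, n2, n3⟩ := hcon
    have hrel := relHeight_eq x m hx
    have hxB : AA.relHeight x ≤ B := by
      rw [hrel, hB]
      exact Real.exp_le_exp.2 (mul_le_mul_of_nonneg_left hxT hdm.le)
    set h : ℝ := AA.height x with hh
    have g1 : Real.log B < 2 * (d * m * h) := by
      have g2 : ¬ AA.relHeight x ≤ B ^ ((1 : ℝ) / 2) := by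
        intro g3
        refine n1 ⟨hx, g3, ?_, ?_⟩
        · rw [map_one]
          exact one_ne_zero
        · rw [zero_mul]
          unfold AA.proximity SST.proxK
          simp
      rw [not_le, hrel] at g2
      have g3 := Real.log_lt_log (by positivity) g2
      have g4 : Real.log (Real.exp (finrank ℚ k * m * h)) = d * m * h := Real.log_exp _
      rw [Real.log_rpow hB0, g4] at g3
      linarith
    have g2 : AA.proximity p (φ.map (algebraMap (𝓞 k) k)) φ.natDegree x < a * h := by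
      by_contra g3
      exact n2 ⟨hx, hxB, hφx, not_lt.1 g3⟩
    have g3 := log_norm p φ x hφx
    set N₀ : ℕ := Ideal.absNorm (SS.zid (aeval (AdjoinSimple.gen k x)
      (φ.map (algebraMap (𝓞 k) k))) φ.natDegree (AdjoinSimple.gen k x)) with hN₀
    have hfin0 : (0 : ℝ) < finrank ℚ (IntermediateField.adjoin k {x}) := by
      have : 0 < finrank ℚ (IntermediateField.adjoin k {x}) := finrank_pos
      exact_mod_cast this
    have hfd : (finrank ℚ (IntermediateField.adjoin k {x}) : ℝ) = d * m := by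
      have := finrank_mul_finrank ℚ k (IntermediateField.adjoin k {x})
      rw [hx] at this
      exact_mod_cast this.symm
    have hh0 : 0 < h := by
      by_contra g4
      have g5 : d * m * h ≤ 0 := by
        rw [not_lt] at g4
        exact mul_nonpos_of_nonneg_of_nonpos hdm.le g4
      have g6 : 0 ≤ Real.log B := Real.log_nonneg hB1
      linarith
    have hsq1 : 1 ≤ sqx φ x := SS.sq_pos _
    have hN1 : N₀ ≠ 0 := by
      intro h0
      have g4 : sqx φ x = SS.sq N₀ := rfl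
      rw [h0, Nat.cast_zero, Real.log_zero, hfd] at g3
      have g5 : (φ.natDegree : ℝ) * h < a * h := by
        have g6 : (φ.natDegree : ℝ) * h - AA.proximity p (φ.map (algebraMap (𝓞 k) k))
            φ.natDegree x = 0 := by
          rcases mul_eq_zero.1 g3.symm with g7 | g7
          · exact absurd g7 hdm.ne'
          · exact g7
        linarith
      have g6 : (1 : ℝ) ≤ φ.natDegree := by
        have h7 : (φ.map (algebraMap (𝓞 k) k)).natDegree = φ.natDegree :=
          natDegree_map_eq_of_injective RingOfIntegers.coe_injective φ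
        have h8 := hφ.natDegree_pos
        rw [h7] at h8
        exact_mod_cast h8
      nlinarith
    obtain ⟨t, ht1, ht2, ht3⟩ := SS.exists_full N₀ hN1
    have ht0 : t ≠ 0 := by
      rintro rfl
      exact hN1 ht1
    have htZ : (t : ℝ) < B ^ κ₁ := by
      by_contra g4
      exact n3 ⟨hx, hxB, hφx, t, ⟨SS.sq N₀, by rw [mul_comm]; exact ht1⟩, ht2, not_lt.1 g4⟩
    have g4 : Real.log t < κ₁ * Real.log B := by
      have g5 := Real.log_lt_log (by positivity) htZ
      rwa [Real.log_rpow hB0] at g5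
    have g5 : Real.log N₀ = Real.log (sqx φ x) + Real.log t := by
      have g6 : (N₀ : ℝ) = (sqx φ x : ℝ) * t := by
        have g7 : sqx φ x = SS.sq N₀ := rfl
        rw [g7]
        exact_mod_cast ht1
      rw [g6, Real.log_mul (by positivity) (by positivity)]
    have g6 : Real.log t < κ₁ * (2 * (d * m * h)) :=
      g4.trans (mul_lt_mul_of_pos_left g1 hκ₁0)
    have g7 : (d : ℝ) * m * (φ.natDegree * h - a * h) < Real.log N₀ := by
      rw [g3, hfd]
      exact mul_lt_mul_of_pos_left (by linarith) hdm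
    rw [hfd] at hlog
    have g8 : (d : ℝ) * m * h * a ≤ d * m * h * (κ / 2) :=
      mul_le_mul_of_nonneg_left haκ (by positivity)
    rw [hκ₁] at g6
    nlinarith
  have hfin : (S₁ ∪ (S₂ ∪ Bad k φ m B (B ^ κ₁))).Finite := f1.union (f2.union f3)
  refine ⟨hfin.subset hsub, ?_⟩
  have hcard : (S.ncard : ℝ) ≤ S₁.ncard + (S₂.ncard + (Bad k φ m B (B ^ κ₁)).ncard) := by
    have h1 : S.ncard ≤ S₁.ncard + (S₂.ncard + (Bad k φ m B (B ^ κ₁)).ncard) :=
      (Set.ncard_le_ncard hsub hfin).trans ((Set.ncard_union_le _ _).trans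
        (Nat.add_le_add_left (Set.ncard_union_le _ _) _))
    exact_mod_cast h1
  have hexp : Real.exp ((m + 1 - δ) * (d * m) * T) = B ^ ((m : ℝ) + 1 - δ) := by
    rw [hB, ← Real.exp_mul]
    congr 1
    ring
  rw [hexp]
  have e1 : (S₁.ncard : ℝ) ≤ |C₁| * B ^ ((m : ℝ) + 1 - δ) := by
    refine c1.trans ?_
    rw [← Real.rpow_mul hB0.le]
    have h1 : B ^ ((1 : ℝ) / 2 * ((m : ℝ) + 1 - 0 + 1)) ≤ B ^ ((m : ℝ) + 1 - δ) := by
      refine Real.rpow_le_rpow_of_exponent_le hB1 ?_
      have : δ ≤ 1 / 2 := min_le_left _ _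
      linarith
    calc C₁ * B ^ ((1 : ℝ) / 2 * ((m : ℝ) + 1 - 0 + 1)) ≤
        |C₁| * B ^ ((1 : ℝ) / 2 * ((m : ℝ) + 1 - 0 + 1)) :=
          mul_le_mul_of_nonneg_right (le_abs_self _) (by positivity)
      _ ≤ _ := mul_le_mul_of_nonneg_left h1 (abs_nonneg _)
  have e2 : (S₂.ncard : ℝ) ≤ |C₂| * B ^ ((m : ℝ) + 1 - δ) := by
    refine c2.trans ?_
    have h1 : B ^ ((m : ℝ) + 1 - a + a / 2) ≤ B ^ ((m : ℝ) + 1 - δ) := by
      refine Real.rpow_le_rpow_of_exponent_le hB1 ?_
      have : δ ≤ a / 2 := (min_le_right _ _).trans (min_le_left _ _)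
      linarith
    calc C₂ * B ^ ((m : ℝ) + 1 - a + a / 2) ≤ |C₂| * B ^ ((m : ℝ) + 1 - a + a / 2) :=
          mul_le_mul_of_nonneg_right (le_abs_self _) (by positivity)
      _ ≤ _ := mul_le_mul_of_nonneg_left h1 (abs_nonneg _)
  have e3 : ((Bad k φ m B (B ^ κ₁)).ncard : ℝ) ≤ C₃ * B ^ ((m : ℝ) + 1 - δ) := by
    refine c3.trans ?_
    have h1 : B ^ (m + 1) * (B ^ κ₁) ^ (-δ₃) ≤ B ^ ((m : ℝ) + 1 - δ) := by
      rw [← Real.rpow_mul hB0.le, ← Real.rpow_natCast, ← Real.rpow_add hB0]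
      refine Real.rpow_le_rpow_of_exponent_le hB1 ?_
      have : δ ≤ κ₁ * δ₃ := (min_le_right _ _).trans (min_le_right _ _)
      push_cast
      linarith
    rw [mul_assoc]
    exact mul_le_mul_of_nonneg_left h1 hC₃.le
  calc (S.ncard : ℝ) ≤ S₁.ncard + (S₂.ncard + (Bad k φ m B (B ^ κ₁)).ncard) := hcard
    _ ≤ |C₁| * B ^ ((m : ℝ) + 1 - δ) + (|C₂| * B ^ ((m : ℝ) + 1 - δ) +
        C₃ * B ^ ((m : ℝ) + 1 - δ)) := add_le_add e1 (add_le_add e2 e3)
    _ = _ := by ring

end Pool.Agent.SFD
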