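import Pool.Agent.SFD.Final

/-!
# Superelliptic curves: the theorem for polynomials over the field
-/

set_option autoImplicit false

open Polynomial NumberField IntermediateField Module Pool.Agent.RefW

namespace Pool.Agent.SFD

/-- an integral multiple of a polynomial -/
theorem exists_int {k : Type} [Field k] [NumberField k] (g : k[X]) :
    ∃ (b : 𝓞 k) (G : (𝓞 k)[X]), b ≠ 0 ∧
      G.map (algebraMap (𝓞 k) k) = C (b : k) * g := by
  obtain ⟨b, hb, h⟩ := IsLocalization.integerNormalization_spec (nonZeroDivisors (𝓞 k)) g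
  refine ⟨b, IsLocalization.integerNormalization (nonZeroDivisors (𝓞 k)) g,
    nonZeroDivisors.ne_zero hb, ?_⟩
  rw [h]
  ext i
  rw [coeff_smul, coeff_C_mul, Algebra.smul_def]

/-- integral factors -/
theorem exists_facs {k : Type} [Field k] [NumberField k] (D : ℕ) (s : Multiset k[X]) :
    (∀ g ∈ s, Irreducible g ∧ g.natDegree ≤ D) →
    ∃ (r : ℕ) (fs : Fin r → (𝓞 k)[X]) (b : 𝓞 k), b ≠ 0 ∧
      (∀ i, Irreducible ((fs i).map (algebraMap (𝓞 k) k)) ∧ (fs i).natDegree ≤ D) ∧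
      (∏ i, fs i).map (algebraMap (𝓞 k) k) = C (b : k) * s.prod := by
  induction s using Multiset.induction_on with
  | empty =>
    intro _
    refine ⟨0, fun i => i.elim0, 1, one_ne_zero, fun i => i.elim0, ?_⟩
    simp
  | cons g s ih =>
    intro h
    obtain ⟨r, fs, b, hb, hfs, hprod⟩ := ih fun g' hg' => h g' (Multiset.mem_cons_of_mem hg')
    obtain ⟨b', G, hb', hG⟩ := exists_int g
    have hb0 : (b' : k) ≠ 0 := by
      intro h0
      exact hb' (RingOfIntegers.ext h0)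
    obtain ⟨h1, h2⟩ := h g (Multiset.mem_cons_self _ _)
    have hinj : Function.Injective (algebraMap (𝓞 k) k) := RingOfIntegers.coe_injective
    refine ⟨r + 1, Fin.cons G fs, b' * b, mul_ne_zero hb' hb, fun i => ?_, ?_⟩
    · refine Fin.cases ?_ (fun i => ?_) i
      · rw [Fin.cons_zero]
        constructor
        · rw [hG]
          have hu : IsUnit (C (b' : k)) := isUnit_C.2 (isUnit_iff_ne_zero.2 hb0)
          exact (irreducible_isUnit_mul hu).2 h1
        · rw [← natDegree_map_eq_of_injective hinj, hG, natDegree_C_mul hb0]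
          exact h2
      · rw [Fin.cons_succ]
        exact hfs i
    · rw [Fin.prod_univ_succ, Fin.cons_zero, Polynomial.map_mul, hG]
      simp only [Fin.cons_succ]
      rw [hprod, Multiset.prod_cons]
      have : ((b' * b : 𝓞 k) : k) = (b' : k) * (b : k) := rfl
      rw [this, C_mul]
      ring

/-- an integral model of the curve -/
theorem exists_model {k : Type} [Field k] [NumberField k] (f₁ f₂ : k[X])
    (hf : Squarefree (f₁ * f₂)) (D N : ℕ) (hN : 1 ≤ N)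
    (hD : ∀ g : k[X], Irreducible g → g ∣ f₁ → g.natDegree ≤ D) :
    ∃ (r : ℕ) (fs : Fin r → (𝓞 k)[X]) (I : Finset (Fin r)) (β : 𝓞 k), β ≠ 0 ∧
      (∀ i ∈ I, Irreducible ((fs i).map (algebraMap (𝓞 k) k)) ∧ (fs i).natDegree ≤ D) ∧
      ∑ i ∈ I, (fs i).natDegree = f₁.natDegree ∧
      (∏ i, fs i).map (algebraMap (𝓞 k) k) = C ((β : k) ^ N) * (f₁ * f₂) := by
  classical
  have hinj : Function.Injective (algebraMap (𝓞 k) k) := RingOfIntegers.coe_injective
  have hf₁ : f₁ ≠ 0 := left_ne_zero_of_mul hf.ne_zero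
  have hf₂ : f₂ ≠ 0 := right_ne_zero_of_mul hf.ne_zero
  have hc0 : ∀ b : 𝓞 k, b ≠ 0 → (b : k) ≠ 0 := fun b hb h0 => hb (RingOfIntegers.ext h0)
  obtain ⟨r, fs, b, hb, hfs, hprod⟩ := exists_facs D
    (UniqueFactorizationMonoid.normalizedFactors f₁) (fun g hg =>
      ⟨UniqueFactorizationMonoid.irreducible_of_normalized_factor g hg,
        hD g (UniqueFactorizationMonoid.irreducible_of_normalized_factor g hg)
          (UniqueFactorizationMonoid.dvd_of_mem_normalizedFactors hg)⟩)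
  obtain ⟨c, hc⟩ := (UniqueFactorizationMonoid.prod_normalizedFactors hf₁).symm
  -- `f₁ * c = prod`
  obtain ⟨b₂, F₂, hb₂, hF₂⟩ := exists_int f₂
  obtain ⟨γ, hγ, hγc⟩ := isUnit_iff.1 c.isUnit
  have hγ0 : γ ≠ 0 := hγ.ne_zero
  obtain ⟨c₁, c₂, hc₂, hcc⟩ := IsFractionRing.div_surjective (𝓞 k) γ
  have hc₂0 : c₂ ≠ 0 := nonZeroDivisors.ne_zero hc₂
  have hc₂k := hc0 c₂ hc₂0
  have hc₁k : (c₁ : k) ≠ 0 := by
    intro h
    apply hγ0
    rw [← hcc]
    change (c₁ : k) / (c₂ : k) = 0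
    rw [h, zero_div]
  have hc₁0 : c₁ ≠ 0 := by
    rintro rfl
    exact hc₁k rfl
  have hγ' : γ * (c₂ : k) = (c₁ : k) := by
    rw [← hcc]
    exact div_mul_cancel₀ _ hc₂k
  -- the constants
  have hprod' : (∏ i, fs i).map (algebraMap (𝓞 k) k) = C ((b : k) * γ) * f₁ := by
    rw [hprod, ← hc, ← hγc, C_mul]
    ring
  set u : 𝓞 k := (b * b₂ * c₁) ^ (N - 1) * c₂ ^ (N + 1) with hu
  have hu0 : (u : k) = ((b : k) * b₂ * c₁) ^ (N - 1) * (c₂ : k) ^ (N + 1) := by
    rw [hu]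
    change algebraMap (𝓞 k) k _ = _
    rw [map_mul, map_pow, map_pow, map_mul, map_mul]
  refine ⟨r + 1, Fin.cons (C u * F₂) fs, Finset.univ.map (Fin.succEmb r),
    b * b₂ * c₁ * c₂, ?_, ?_, ?_, ?_⟩
  · exact mul_ne_zero (mul_ne_zero (mul_ne_zero hb hb₂) hc₁0) hc₂0
  · intro i hi
    rw [Finset.mem_map] at hi
    obtain ⟨j, -, rfl⟩ := hi
    have : (Fin.cons (C u * F₂) fs : Fin (r + 1) → (𝓞 k)[X]) (Fin.succEmb r j) = fs j :=
      Fin.cons_succ _ _ _
    rw [this]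
    exact hfs j
  · rw [Finset.sum_map]
    have h1 : ∀ j, (Fin.cons (C u * F₂) fs : Fin (r + 1) → (𝓞 k)[X]) (Fin.succEmb r j) = fs j :=
      fun j => Fin.cons_succ _ _ _
    rw [Finset.sum_congr rfl fun j _ => by rw [h1 j]]
    have h2 : ∏ i, fs i ≠ 0 := by
      intro h0
      rw [h0, Polynomial.map_zero] at hprod'
      exact (mul_ne_zero (C_ne_zero.2 (mul_ne_zero (hc0 b hb) hγ0)) hf₁) hprod'.symm
    rw [← natDegree_prod _ _ fun i _ => fun h0 => h2 (Finset.prod_eq_zero (Finset.mem_univ i) h0),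
      ← natDegree_map_eq_of_injective hinj, hprod',
      natDegree_C_mul (mul_ne_zero (hc0 b hb) hγ0)]
  · rw [Fin.prod_univ_succ, Fin.cons_zero]
    simp only [Fin.cons_succ]
    rw [Polynomial.map_mul, Polynomial.map_mul, hprod', hF₂, map_C]
    have h1 : algebraMap (𝓞 k) k u = ((b : k) * b₂ * c₁) ^ (N - 1) * (c₂ : k) ^ (N + 1) := hu0
    have h2 : ((b * b₂ * c₁ * c₂ : 𝓞 k) : k) = (b : k) * b₂ * c₁ * c₂ := by
      change algebraMap (𝓞 k) k _ = _
      rw [map_mul, map_mul, map_mul]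
    rw [h1, h2]
    have h3 : ((b : k) * b₂ * c₁) ^ (N - 1) * (c₂ : k) ^ (N + 1) * b₂ * ((b : k) * γ) =
        ((b : k) * b₂ * c₁ * c₂) ^ N := by
      obtain ⟨n, rfl⟩ : ∃ n, N = n + 1 := ⟨N - 1, by omega⟩
      rw [Nat.add_sub_cancel, ← hγ']
      ring
    calc C (((b : k) * b₂ * c₁) ^ (N - 1) * (c₂ : k) ^ (N + 1)) * (C (b₂ : k) * f₂) *
          (C ((b : k) * γ) * f₁) =
        C (((b : k) * b₂ * c₁) ^ (N - 1) * (c₂ : k) ^ (N + 1) * b₂ * ((b : k) * γ)) *
          (f₁ * f₂) := by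
          simp only [C_mul]
          ring
      _ = _ := by rw [h3]

/-- **The number of points with a small discriminant.** -/
theorem viol_of (k : Type) [Field k] [NumberField k] (f₁ f₂ : k[X]) (hf : Squarefree (f₁ * f₂))
    (N m : ℕ) (hN : 1 ≤ N) (hm : 1 ≤ m)
    (hD : ∀ g : k[X], Irreducible g → g ∣ f₁ → g.natDegree ≤ 2 * m + 1) (A' : ℝ)
    (hA' : DiscLow k m A') (A B : ℝ)
    (hA : A < (1 - 1 / (N : ℝ)) * f₁.natDegree + A') :
    ∃ C δ : ℝ, 0 < δ ∧ ∀ T : ℝ, 0 ≤ T →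
      {P ∈ Cov k (f₁ * f₂) N m T | HD.logDiscr P ≤ A * AA.height P.1 + B}.Finite ∧
      ({P ∈ Cov k (f₁ * f₂) N m T | HD.logDiscr P ≤ A * AA.height P.1 + B}.ncard : ℝ) ≤
        C * Real.exp ((m + 1 - δ) * (finrank ℚ k * m) * T) := by
  classical
  obtain ⟨r, fs, I, β, hβ, hI, hsum, hprod⟩ := exists_model f₁ f₂ hf (2 * m + 1) N hN hD
  have hβk : (β : k) ≠ 0 := fun h0 => hβ (RingOfIntegers.ext h0)
  have hsq : Squarefree ((∏ i, fs i).map (algebraMap (𝓞 k) k)) := by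
    rw [hprod]
    have hu : IsUnit (C ((β : k) ^ N)) := isUnit_C.2 (isUnit_iff_ne_zero.2 (pow_ne_zero _ hβk))
    refine Squarefree.squarefree_of_dvd ?_ hf
    obtain ⟨c, hc⟩ := hu
    exact ⟨(c⁻¹ : k[X]ˣ), by rw [← hc]; rw [mul_comm (c : k[X]), mul_assoc, Units.mul_inv, mul_one]⟩
  obtain ⟨C₁, δ, hδ, h⟩ := viol_fac k fs hsq N hN m hm I hI A' hA' A B (by
    have h1 : ∑ i ∈ I, ((fs i).natDegree : ℝ) = f₁.natDegree := by exact_mod_cast hsum
    rw [h1]
    exact hA)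
  refine ⟨C₁, δ, hδ, fun T hT => ?_⟩
  obtain ⟨h1, h2⟩ := h T hT
  set V := {P ∈ Cov k (f₁ * f₂) N m T | HD.logDiscr P ≤ A * AA.height P.1 + B} with hV
  set V' := {P ∈ Cov k ((∏ i, fs i).map (algebraMap (𝓞 k) k)) N m T |
    HD.logDiscr P ≤ A * AA.height P.1 + B} with hV'
  set b : AlgebraicClosure k := algebraMap k (AlgebraicClosure k) (β : k) with hb
  have hb0 : b ≠ 0 := (_root_.map_ne_zero _).2 hβk
  let F : AlgebraicClosure k × AlgebraicClosure k → AlgebraicClosure k × AlgebraicClosure k :=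
    fun P => (P.1, b * P.2)
  have hF : Set.InjOn F V := by
    rintro ⟨x, y⟩ _ ⟨x', y'⟩ _ h3
    have e1 : x = x' := congrArg Prod.fst h3
    have e2 : b * y = b * y' := congrArg Prod.snd h3
    rw [e1, mul_left_cancel₀ hb0 e2]
  have hmaps : Set.MapsTo F V V' := by
    rintro P ⟨⟨p1, p2, p3⟩, p4⟩
    refine ⟨⟨?_, p2, p3⟩, ?_⟩
    · show (b * P.2) ^ N = aeval P.1 ((∏ i, fs i).map (algebraMap (𝓞 k) k))
      rw [hprod, mul_pow, p1, map_mul (aeval P.1) (C ((β : k) ^ N)), aeval_C, map_pow]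
    · have hle : IntermediateField.adjoin k {P.1, b * P.2} ≤
          IntermediateField.adjoin k {P.1, P.2} := by
        rw [IntermediateField.adjoin_le_iff]
        intro z hz
        have hx : P.1 ∈ IntermediateField.adjoin k {P.1, P.2} :=
          IntermediateField.subset_adjoin k _ (by simp)
        have hy : P.2 ∈ IntermediateField.adjoin k {P.1, P.2} :=
          IntermediateField.subset_adjoin k _ (by simp)
        rcases hz with hz | hz
        · rw [hz]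
          exact hx
        · rw [Set.mem_singleton_iff.1 hz]
          exact mul_mem (IntermediateField.algebraMap_mem _ _) hy
      let : Algebra (IntermediateField.adjoin k {P.1, b * P.2})
          (IntermediateField.adjoin k {P.1, P.2}) :=
        (IntermediateField.inclusion hle).toRingHom.toAlgebra
      have h3 : HD.logDiscr (F P) ≤ HD.logDiscr P := HD.logDisc_le_of_algebra
        (IntermediateField.adjoin k {P.1, b * P.2}) (IntermediateField.adjoin k {P.1, P.2})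
      exact h3.trans p4
  refine ⟨Set.Finite.of_injOn hmaps hF h1, ?_⟩
  exact (Nat.cast_le.2 (Set.ncard_le_ncard_of_injOn F hmaps hF h1)).trans h2

/-- **The number of points with a small discriminant.** -/
theorem viol (k : Type) [Field k] [NumberField k] (f₁ f₂ : k[X]) (hf : Squarefree (f₁ * f₂))
    (N m : ℕ) (hN : 1 ≤ N) (hm : 1 ≤ m)
    (hD : ∀ g : k[X], Irreducible g → g ∣ f₁ → g.natDegree ≤ 2 * m + 1) (A' : ℝ)
    (hA' : A' = 0 ∨ (0 < A' ∧ A' * HD.ex (finrank ℚ k) m < m - 1)) (A B : ℝ)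
    (hA : A < (1 - 1 / (N : ℝ)) * f₁.natDegree + A') :
    ∃ C δ : ℝ, 0 < δ ∧ ∀ T : ℝ, 0 ≤ T →
      {P ∈ Cov k (f₁ * f₂) N m T | HD.logDiscr P ≤ A * AA.height P.1 + B}.Finite ∧
      ({P ∈ Cov k (f₁ * f₂) N m T | HD.logDiscr P ≤ A * AA.height P.1 + B}.ncard : ℝ) ≤
        C * Real.exp ((m + 1 - δ) * (finrank ℚ k * m) * T) := 
  viol_of k f₁ f₂ hf N m hN hm hD A' (disc_x k m A' hA') A B hA

/-- **The height inequality for almost all points.** -/
theorem q1_of (k : Type) [Field k] [NumberField k] {r : ℕ} (p : Fin r → ℕ)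
    [∀ t, Fact (p t).Prime] (hp : Function.Injective p) (g : k[X]) (hg : Squarefree g) (q : ℕ)
    (hq : q = g.natDegree ∨ q = g.natDegree + 1) (f₁ f₂ : k[X]) (hf : Squarefree (f₁ * f₂))
    (N m : ℕ) (hN : 1 ≤ N) (hm : 1 ≤ m)
    (hD : ∀ g : k[X], Irreducible g → g ∣ f₁ → g.natDegree ≤ 2 * m + 1) (A' : ℝ)
    (hA' : DiscLow k m A') (A ε : ℝ)
    (hA : A - ε < (1 - 1 / (N : ℝ)) * f₁.natDegree + A') :
    ∃ C δ : ℝ, 0 < δ ∧ ∀ T : ℝ, 0 ≤ T →
      {P ∈ Cov k (f₁ * f₂) N m T | aeval P.1 g ≠ 0 ∧ HD.logDiscr P + ε * AA.height P.1 <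
          AA.proximity p g q P.1 + A * AA.height P.1}.Finite ∧
      ({P ∈ Cov k (f₁ * f₂) N m T | aeval P.1 g ≠ 0 ∧ HD.logDiscr P + ε * AA.height P.1 <
          AA.proximity p g q P.1 + A * AA.height P.1}.ncard : ℝ) ≤
        C * Real.exp ((m + 1 - δ) * (finrank ℚ k * m) * T) := by
  classical
  set d := finrank ℚ k with hd
  set gap : ℝ := (1 - 1 / (N : ℝ)) * f₁.natDegree + A' - (A - ε) with hgap
  have hgap0 : 0 < gap := by rw [hgap]; linarith
  set a : ℝ := min 1 (gap / 2) with ha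
  have ha0 : 0 < a := lt_min one_pos (half_pos hgap0)
  have ha1 : a ≤ 1 := min_le_left _ _
  have hag : a ≤ gap / 2 := min_le_right _ _
  obtain ⟨C₁, δ₁, hδ₁, h₁⟩ := viol_of k f₁ f₂ hf N m hN hm hD A' hA' (A - ε + a) 0
    (by rw [hgap] at hag; linarith)
  obtain ⟨C₂, h₂⟩ := TW.near_all_one k p hp g hg q hq m hm a (a / 2) ha0.le (by linarith)
    (half_pos ha0)
  refine ⟨|C₁| + |C₂| * N, min δ₁ (a / 2), lt_min hδ₁ (half_pos ha0), fun T hT => ?_⟩
  obtain ⟨f1, c1⟩ := h₁ T hT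
  set B : ℝ := Real.exp (d * m * T) with hB
  have hB1 : 1 ≤ B := Real.one_le_exp (by positivity)
  have hB0 : 0 < B := lt_of_lt_of_le one_pos hB1
  obtain ⟨f2, c2⟩ := h₂ B hB1
  set U := {x : AlgebraicClosure k | finrank k (IntermediateField.adjoin k {x}) = m ∧
      AA.relHeight x ≤ B ∧ aeval x g ≠ 0 ∧ a * AA.height x ≤ AA.proximity p g q x} with hU
  set V := {P ∈ Cov k (f₁ * f₂) N m T | aeval P.1 g ≠ 0 ∧ HD.logDiscr P + ε * AA.height P.1 <
          AA.proximity p g q P.1 + A * AA.height P.1} with hV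
  set V₁ := {P ∈ Cov k (f₁ * f₂) N m T |
    HD.logDiscr P ≤ (A - ε + a) * AA.height P.1 + 0} with hV₁
  set V₂ := {P ∈ Cov k (f₁ * f₂) N m T | P.1 ∈ U} with hV₂
  obtain ⟨f3, c3⟩ := cov_fibre k (f₁ * f₂) N m hN T V₂ (fun P hP => hP.1) U f2 fun P hP => hP.2
  have hsub : V ⊆ V₁ ∪ V₂ := by
    rintro P ⟨hP, hgx, hlt⟩
    by_cases hprox : a * AA.height P.1 ≤ AA.proximity p g q P.1
    · right
      refine ⟨hP, hP.2.1, ?_, hgx, hprox⟩
      rw [relHeight_eq P.1 m hP.2.1]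
      exact Real.exp_le_exp.2 (mul_le_mul_of_nonneg_left hP.2.2 (by positivity))
    · left
      refine ⟨hP, ?_⟩
      rw [not_le] at hprox
      have : (A - ε + a) * AA.height P.1 =
        A * AA.height P.1 - ε * AA.height P.1 + a * AA.height P.1 := by ring
      linarith
  refine ⟨(f1.union f3).subset hsub, ?_⟩
  have g1 : (V.ncard : ℝ) ≤ V₁.ncard + V₂.ncard := by
    exact_mod_cast (Set.ncard_le_ncard hsub (f1.union f3)).trans (Set.ncard_union_le _ _)
  set δ : ℝ := min δ₁ (a / 2) with hδ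
  have hexp : Real.exp ((m + 1 - δ) * (d * m) * T) = B ^ ((m : ℝ) + 1 - δ) := by
    rw [hB, ← Real.exp_mul]
    congr 1
    ring
  have g2 : (V₁.ncard : ℝ) ≤ |C₁| * Real.exp ((m + 1 - δ) * (d * m) * T) := by
    have e1 : Real.exp ((m + 1 - δ₁) * (d * m) * T) ≤ Real.exp ((m + 1 - δ) * (d * m) * T) := by
      refine Real.exp_le_exp.2 ?_
      have : δ ≤ δ₁ := min_le_left _ _
      refine mul_le_mul_of_nonneg_right (mul_le_mul_of_nonneg_right (by linarith)
        (by positivity)) hT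
    calc (V₁.ncard : ℝ) ≤ C₁ * Real.exp ((m + 1 - δ₁) * (d * m) * T) := c1
      _ ≤ |C₁| * Real.exp ((m + 1 - δ₁) * (d * m) * T) :=
          mul_le_mul_of_nonneg_right (le_abs_self _) (Real.exp_pos _).le
      _ ≤ _ := mul_le_mul_of_nonneg_left e1 (abs_nonneg _)
  have g3 : (U.ncard : ℝ) ≤ |C₂| * Real.exp ((m + 1 - δ) * (d * m) * T) := by
    rw [hexp]
    have e1 : B ^ ((m : ℝ) + 1 - a + a / 2) ≤ B ^ ((m : ℝ) + 1 - δ) := by
      refine Real.rpow_le_rpow_of_exponent_le hB1 ?_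
      have : δ ≤ a / 2 := min_le_right _ _
      linarith
    calc (U.ncard : ℝ) ≤ C₂ * B ^ ((m : ℝ) + 1 - a + a / 2) := c2
      _ ≤ |C₂| * B ^ ((m : ℝ) + 1 - a + a / 2) :=
          mul_le_mul_of_nonneg_right (le_abs_self _) (by positivity)
      _ ≤ _ := mul_le_mul_of_nonneg_left e1 (abs_nonneg _)
  calc (V.ncard : ℝ) ≤ V₁.ncard + V₂.ncard := g1
    _ ≤ |C₁| * Real.exp ((m + 1 - δ) * (d * m) * T) +
        (|C₂| * Real.exp ((m + 1 - δ) * (d * m) * T)) * N :=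
        add_le_add g2 (c3.trans (mul_le_mul_of_nonneg_right g3 (Nat.cast_nonneg _)))
    _ = _ := by ring

/-- **The height inequality for almost all points.** -/
theorem q1 (k : Type) [Field k] [NumberField k] {r : ℕ} (p : Fin r → ℕ)
    [∀ t, Fact (p t).Prime] (hp : Function.Injective p) (g : k[X]) (hg : Squarefree g) (q : ℕ)
    (hq : q = g.natDegree ∨ q = g.natDegree + 1) (f₁ f₂ : k[X]) (hf : Squarefree (f₁ * f₂))
    (N m : ℕ) (hN : 1 ≤ N) (hm : 1 ≤ m)
    (hD : ∀ g : k[X], Irreducible g → g ∣ f₁ → g.natDegree ≤ 2 * m + 1) (A' : ℝ)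
    (hA' : A' = 0 ∨ (0 < A' ∧ A' * HD.ex (finrank ℚ k) m < m - 1)) (A ε : ℝ)
    (hA : A - ε < (1 - 1 / (N : ℝ)) * f₁.natDegree + A') :
    ∃ C δ : ℝ, 0 < δ ∧ ∀ T : ℝ, 0 ≤ T →
      {P ∈ Cov k (f₁ * f₂) N m T | aeval P.1 g ≠ 0 ∧ HD.logDiscr P + ε * AA.height P.1 <
          AA.proximity p g q P.1 + A * AA.height P.1}.Finite ∧
      ({P ∈ Cov k (f₁ * f₂) N m T | aeval P.1 g ≠ 0 ∧ HD.logDiscr P + ε * AA.height P.1 <
          AA.proximity p g q P.1 + A * AA.height P.1}.ncard : ℝ) ≤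
        C * Real.exp ((m + 1 - δ) * (finrank ℚ k * m) * T) := 
  q1_of k p hp g hg q hq f₁ f₂ hf N m hN hm hD A' (disc_x k m A' hA') A ε hA

end Pool.Agent.SFD
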