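import Pool.Agent.SFD.Sieve
import Pool.Agent.SS.Divis

/-!
# Few points have a value with a large squarefull part
-/

set_option autoImplicit false

open Polynomial NumberField IntermediateField Module Pool.Agent.RefW

namespace Pool.Agent.SFD

/-- a squarefull divisor can be enlarged to a unitary squarefull divisor -/
theorem big_of_dvd (a t : ℕ) (ha : a ≠ 0) (hta : t ∣ a) (ht : SS.Full t) (Z : ℝ) (hZ : Z ≤ t) :
    Big a Z := by
  have ht0 : t ≠ 0 := by
    rintro rfl
    exact ha (zero_dvd_iff.1 hta)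
  set t' : ℕ := Nat.gcd a (t ^ a) with ht'
  have h1 : t' ∣ a := Nat.gcd_dvd_left _ _
  have h2 : t ∣ t' := Nat.dvd_gcd hta (dvd_pow_self t ha)
  have ht'0 : t' ≠ 0 := fun h => ha (by rw [h] at h1; exact zero_dvd_iff.1 h1)
  have h3 : ∀ p : ℕ, p.Prime → p ∣ t' → p ∣ t := fun p hp hpt =>
    hp.dvd_of_dvd_pow (hpt.trans (Nat.gcd_dvd_right _ _))
  obtain ⟨s, hs⟩ := h1
  refine ⟨s, t', by rw [mul_comm]; exact hs, ?_, ?_, ?_⟩
  · rw [Nat.coprime_iff_gcd_eq_one]
    by_contra hne
    obtain ⟨p, hp, hpg⟩ := Nat.exists_prime_and_dvd hne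
    have hps : p ∣ s := hpg.trans (Nat.gcd_dvd_left _ _)
    have hpt : p ∣ t' := hpg.trans (Nat.gcd_dvd_right _ _)
    set v := t'.factorization p with hv
    have h4 : p ^ (v + 1) ∣ a := by
      rw [hs, pow_succ]
      exact mul_dvd_mul (Nat.ordProj_dvd t' p) hps
    have h5 : v + 1 ≤ a := by
      have h6 : p ^ (v + 1) ≤ a := Nat.le_of_dvd (Nat.pos_of_ne_zero ha) h4
      exact ((Nat.lt_pow_self hp.one_lt).le).trans h6
    have h7 : p ^ (v + 1) ∣ t ^ a :=
      (pow_dvd_pow p h5).trans (pow_dvd_pow_of_dvd (h3 p hp hpt) a)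
    have h8 : p ^ (v + 1) ∣ t' := Nat.dvd_gcd h4 h7
    exact Nat.pow_succ_factorization_not_dvd ht'0 hp h8
  · intro p hp hpt
    exact (ht p hp (h3 p hp hpt)).trans h2
  · exact hZ.trans (by exact_mod_cast Nat.le_of_dvd (Nat.pos_of_ne_zero ht'0) h2)

/-- the form of a point -/
theorem exists_form (k : Type) [Field k] [NumberField k] (m : ℕ) : ∃ C : ℝ, 1 ≤ C ∧
    ∀ (x : AlgebraicClosure k) (B : ℝ), finrank k (IntermediateField.adjoin k {x}) = m → 1 ≤ B →
      AA.relHeight x ≤ B → ∃ F : Fin (m + 1) → 𝓞 k,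
        (∀ i, ∀ v : InfinitePlace k, v (F i : k) ≤ C * B ^ ((1 : ℝ) / finrank ℚ k)) ∧
        polyOf F ≠ 0 ∧ (polyOf F).natDegree = m ∧
        aeval x ((polyOf F).map (algebraMap (𝓞 k) k)) = 0 := by
  obtain ⟨C, hC, hsup⟩ := exists_supMin k m
  refine ⟨max 1 C, le_max_left _ _, fun x B hx hB hxB => ?_⟩
  set L := IntermediateField.adjoin k {x} with hL
  set ξ : L := AdjoinSimple.gen k x with hξ
  have hgen : IntermediateField.adjoin k {ξ} = ⊤ := by
    apply IntermediateField.lift_injective (IntermediateField.adjoin k {x})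
    rw [IntermediateField.lift_adjoin_simple, IntermediateField.lift_top,
      AdjoinSimple.coe_gen]
  obtain ⟨F, hF, hroot, hsF⟩ := hsup L ξ hgen hx
  set d := finrank ℚ k with hd
  have hd0 : 0 < d := finrank_pos
  have hm0 : 0 < m := by
    rw [← hx]
    have : FiniteDimensional k L := FiniteDimensional.right ℚ k L
    exact finrank_pos
  have hB0 : 0 < B := lt_of_lt_of_le one_pos hB
  have hexp : Real.exp (m * SST.ht L ξ) ≤ B ^ ((1 : ℝ) / d) := by
    have h1 : (m : ℝ) * SST.ht L ξ = Real.log (AA.relHeight x) * (1 / d) := by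
      have h2 : (finrank ℚ L : ℝ) = d * m := by
        have := finrank_mul_finrank ℚ k L
        rw [hx] at this
        exact_mod_cast this.symm
      unfold SST.ht AA.relHeight
      rw [Height.logHeight₁_eq_log_mulHeight₁, h2]
      have hm1 : (m : ℝ) ≠ 0 := by exact_mod_cast hm0.ne'
      have hd1 : (d : ℝ) ≠ 0 := by exact_mod_cast hd0.ne'
      field_simp
      rfl
    have hH1 : 1 ≤ AA.relHeight x := Height.one_le_mulHeight₁ _
    rw [h1, Real.exp_mul, Real.exp_log (lt_of_lt_of_le one_pos hH1)]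
    exact Real.rpow_le_rpow (by linarith) hxB (by positivity)
  refine ⟨F, fun i v => ?_, ?_, ?_, ?_⟩
  · have h1 : v (F i : k) ≤ hs F := by
      rw [← InfinitePlace.norm_embedding_eq]
      exact norm_le_pi_norm (fun q : (k →+* ℂ) × Fin (m + 1) => q.1 (F q.2 : k)) (v.embedding, i)
    refine h1.trans (hsF.trans ?_)
    exact mul_le_mul (le_max_right _ _) hexp (Real.exp_pos _).le (by positivity)
  · intro h0
    have h1 := AA.link_coeff F (Fin.last m)
    rw [h0, coeff_zero] at h1
    exact AA.link_last hF.1 hroot h1.symm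
  · refine le_antisymm ?_ ?_
    · unfold polyOf
      refine natDegree_sum_le_of_forall_le _ _ fun i _ => ?_
      exact (natDegree_C_mul_X_pow_le _ _).trans (Nat.lt_succ_iff.1 i.2)
    · refine le_natDegree_of_ne_zero ?_
      have h1 := AA.link_coeff F (Fin.last m)
      rw [Fin.val_last] at h1
      rw [h1]
      exact AA.link_last hF.1 hroot
  · have h1 := hroot.root
    have h2 : aeval ξ ((polyOf F).map (algebraMap (𝓞 k) k)) = 0 := by
      rw [← h1]
      unfold polyOf
      rw [Polynomial.map_sum, map_sum]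
      refine Finset.sum_congr rfl fun i _ => ?_
      rw [Polynomial.map_mul, Polynomial.map_pow, map_C, map_X, map_mul, map_pow, aeval_C, aeval_X]
    have h3 := congrArg (algebraMap L (AlgebraicClosure k)) h2
    rw [map_zero, ← aeval_algebraMap_apply] at h3
    exact h3

/-- the value `c ^ m F(e)` as a linear form in the coefficients -/
theorem exists_lin {k : Type} [Field k] [NumberField k] (φ : (𝓞 k)[X])
    (hφ : Irreducible (φ.map (algebraMap (𝓞 k) k))) (e : AlgebraicClosure k)
    (he : aeval e (φ.map (algebraMap (𝓞 k) k)) = 0) (m : ℕ) :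
    ∃ u : Fin (m + 1) → 𝓞 (IntermediateField.adjoin k {e}),
      (∀ i, (u i : IntermediateField.adjoin k {e}) =
        algebraMap k _ (φ.leadingCoeff : k) ^ m * AdjoinSimple.gen k e ^ (i : ℕ)) ∧
      finrank k (IntermediateField.adjoin k {e}) = φ.natDegree ∧
      ∀ j : ℕ, ∀ hj : j ≤ m + 1, j ≤ φ.natDegree →
        LinearIndependent k (fun i : Fin j => (u (Fin.castLE hj i) :
          IntermediateField.adjoin k {e})) := by
  set M := IntermediateField.adjoin k {e} with hM
  set ε : M := AdjoinSimple.gen k e with hε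
  set c : 𝓞 k := φ.leadingCoeff with hc
  have hφ0 : φ ≠ 0 := by
    rintro rfl
    simp at hφ
  have hc0 : (c : k) ≠ 0 := by
    intro h
    exact leadingCoeff_ne_zero.2 hφ0 (RingOfIntegers.ext h)
  have hinj : Function.Injective (algebraMap (𝓞 k) k) := RingOfIntegers.coe_injective
  have hdeg : (φ.map (algebraMap (𝓞 k) k)).natDegree = φ.natDegree :=
    natDegree_map_eq_of_injective hinj φ
  have hεφ : aeval ε (φ.map (algebraMap (𝓞 k) k)) = 0 := by
    apply (algebraMap M (AlgebraicClosure k)).injective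
    rw [map_zero, ← aeval_algebraMap_apply]
    exact he
  have hint : IsIntegral k e := Algebra.IsIntegral.isIntegral e
  have hmin : (minpoly k e).natDegree = φ.natDegree := by
    rw [← hdeg, ← minpoly.eq_of_irreducible hφ he,
      natDegree_mul_C (inv_ne_zero (leadingCoeff_ne_zero.2 hφ.ne_zero))]
  have hfr : finrank k M = φ.natDegree := by
    rw [hM, IntermediateField.adjoin.finrank hint, hmin]
  have hθ : IsIntegral ℤ (algebraMap k M (c : k) * ε) := by
    have h1 : IsIntegral (𝓞 k) (φ.leadingCoeff • ε) := by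
      refine isIntegral_leadingCoeff_smul φ ε ?_
      rw [← hεφ, aeval_map_algebraMap]
    have h2 : φ.leadingCoeff • ε = algebraMap k M (c : k) * ε := by
      rw [Algebra.smul_def]
      rfl
    rw [h2] at h1
    have h3 : IsScalarTower ℤ (𝓞 k) M := IsScalarTower.of_algebraMap_eq fun z => by simp
    exact isIntegral_trans _ h1
  set θ : 𝓞 M := ⟨algebraMap k M (c : k) * ε, hθ⟩ with hθdef
  let u : Fin (m + 1) → 𝓞 M := fun i => algebraMap (𝓞 k) (𝓞 M) c ^ (m - (i : ℕ)) * θ ^ (i : ℕ)
  have hu : ∀ i, (u i : M) = algebraMap k M (c : k) ^ m * ε ^ (i : ℕ) := by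
    intro i
    have h1 : (u i : M) = algebraMap k M (c : k) ^ (m - (i : ℕ)) *
        (algebraMap k M (c : k) * ε) ^ (i : ℕ) := by
      show algebraMap (𝓞 M) M (algebraMap (𝓞 k) (𝓞 M) c ^ (m - (i : ℕ)) * θ ^ (i : ℕ)) = _
      rw [map_mul, map_pow, map_pow]
      rfl
    rw [h1, mul_pow, ← mul_assoc, ← pow_add, Nat.sub_add_cancel (Nat.lt_succ_iff.1 i.2)]
  refine ⟨u, hu, hfr, fun j hj hjn => ?_⟩
  have h1 := linearIndependent_pow (K := k) ε
  have h2 : j ≤ (minpoly k ε).natDegree := by
    rw [hε, IntermediateField.minpoly_gen, hmin]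
    exact hjn
  have h3 := h1.comp (Fin.castLE h2) (Fin.castLE_injective h2)
  have hcm : (c : k) ^ m ≠ 0 := pow_ne_zero _ hc0
  have h4 := h3.units_smul (fun _ : Fin j => Units.mk0 _ hcm)
  refine (linearIndependent_iff'.2 ?_)
  rw [linearIndependent_iff'] at h4
  intro s g hg i hi
  refine h4 s g ?_ i hi
  rw [← hg]
  refine Finset.sum_congr rfl fun i _ => ?_
  congr 1
  rw [hu]
  simp only [Pi.smul_apply', Function.comp_apply, Units.smul_mk0, Algebra.smul_def, map_pow,
    Fin.val_castLE]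

/-- the points for which the norm of the ideal of the value has a large squarefull divisor -/
def Bad (k : Type) [Field k] [NumberField k] (φ : (𝓞 k)[X]) (m : ℕ) (B Z : ℝ) :
    Set (AlgebraicClosure k) :=
  {x | finrank k (IntermediateField.adjoin k {x}) = m ∧ AA.relHeight x ≤ B ∧
    aeval x (φ.map (algebraMap (𝓞 k) k)) ≠ 0 ∧
    ∃ t : ℕ, t ∣ Ideal.absNorm (SS.zid
      (aeval (AdjoinSimple.gen k x) (φ.map (algebraMap (𝓞 k) k))) φ.natDegree
      (AdjoinSimple.gen k x)) ∧ SS.Full t ∧ Z ≤ t}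

/-- the value is not zero -/
theorem value_ne (k : Type) [Field k] [NumberField k] (φ : (𝓞 k)[X]) (e : AlgebraicClosure k)
    (he : aeval e (φ.map (algebraMap (𝓞 k) k)) = 0) (m : ℕ) (F : (𝓞 k)[X])
    (x : AlgebraicClosure k) (hx : finrank k (IntermediateField.adjoin k {x}) = m)
    (hF : F.natDegree = m) (hF0 : F ≠ 0) (hFx : aeval x (F.map (algebraMap (𝓞 k) k)) = 0)
    (hφx : aeval x (φ.map (algebraMap (𝓞 k) k)) ≠ 0) :
    aeval e (F.map (algebraMap (𝓞 k) k)) ≠ 0 := by
  intro h
  have hintx : IsIntegral k x := Algebra.IsIntegral.isIntegral x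
  have hinj : Function.Injective (algebraMap (𝓞 k) k) := RingOfIntegers.coe_injective
  have h1 : F.map (algebraMap (𝓞 k) k) =
      C (F.map (algebraMap (𝓞 k) k)).leadingCoeff * minpoly k x := by
    refine Polynomial.eq_leadingCoeff_mul_of_monic_of_dvd_of_natDegree_le (minpoly.monic hintx)
      (minpoly.dvd k x hFx) ?_
    rw [← IntermediateField.adjoin.finrank hintx, hx, natDegree_map_eq_of_injective hinj, hF]
  have h2 : (F.map (algebraMap (𝓞 k) k)).leadingCoeff ≠ 0 :=
    leadingCoeff_ne_zero.2 ((Polynomial.map_ne_zero_iff hinj).2 hF0)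
  rw [h1, map_mul, aeval_C] at h
  have h3 : aeval e (minpoly k x) = 0 := by
    rcases mul_eq_zero.1 h with h4 | h4
    · rw [map_eq_zero] at h4
      exact absurd h4 h2
    · exact h4
  have h5 : minpoly k x = minpoly k e :=
    minpoly.eq_of_irreducible_of_monic (minpoly.irreducible hintx) h3 (minpoly.monic hintx)
  have h6 : minpoly k x ∣ φ.map (algebraMap (𝓞 k) k) := by
    rw [h5]
    exact minpoly.dvd k e he
  obtain ⟨q, hq⟩ := h6
  apply hφx
  rw [hq, map_mul, minpoly.aeval, zero_mul]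

/-- Few points have a value with a large squarefull part. -/
theorem sieve_x (k : Type) [Field k] [NumberField k] (φ : (𝓞 k)[X])
    (hφ : Irreducible (φ.map (algebraMap (𝓞 k) k))) (m : ℕ) (hφm : φ.natDegree ≤ 2 * m + 1) :
    ∃ C δ : ℝ, 0 < C ∧ 0 < δ ∧ ∀ B Z : ℝ, 1 ≤ B → 1 ≤ Z →
      (Bad k φ m B Z).Finite ∧ ((Bad k φ m B Z).ncard : ℝ) ≤ C * B ^ (m + 1) * Z ^ (-δ) := by
  classical
  have hdeg : (φ.map (algebraMap (𝓞 k) k)).natDegree = φ.natDegree :=
    natDegree_map_eq_of_injective RingOfIntegers.coe_injective φ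
  have hn1 : 1 ≤ φ.natDegree := by
    rw [← hdeg]
    exact hφ.natDegree_pos
  obtain ⟨e, he⟩ := IsAlgClosed.exists_aeval_eq_zero (AlgebraicClosure k)
    (φ.map (algebraMap (𝓞 k) k)) (by
      intro h
      have h0 : (φ.map (algebraMap (𝓞 k) k)).natDegree = 0 := natDegree_eq_of_degree_eq_some h
      omega)
  obtain ⟨u, hu, hfr, hlin⟩ := exists_lin φ hφ e he m
  obtain ⟨C₀, hC₀, hform⟩ := exists_form k m
  set j : ℕ := min (m + 1) φ.natDegree with hj
  obtain ⟨C, δ, hC, hδ, hs⟩ := sieve u j (min_le_left _ _)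
    (hlin j (min_le_left _ _) (min_le_right _ _)) (by rw [hfr]; omega)
  set d := finrank ℚ k with hd
  have hd0 : 0 < d := finrank_pos
  refine ⟨m * (C * C₀ ^ (d * (m + 1))) + 1, δ, by positivity, hδ, fun B Z hB hZ => ?_⟩
  have hB0 : 0 < B := lt_of_lt_of_le one_pos hB
  set R : ℝ := C₀ * B ^ ((1 : ℝ) / d) with hR
  have hR1 : 1 ≤ R := by
    have h1 : 1 ≤ B ^ ((1 : ℝ) / d) := Real.one_le_rpow hB (by positivity)
    calc (1 : ℝ) = 1 * 1 := (one_mul _).symm
      _ ≤ C₀ * B ^ ((1 : ℝ) / d) := mul_le_mul hC₀ h1 zero_le_one (by positivity)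
  obtain ⟨hfin, hcard⟩ := hs R Z hR1 hZ
  set T : Set (Fin (m + 1) → 𝓞 k) := {F | (∀ i, ∀ v : InfinitePlace k, v (F i : k) ≤ R) ∧
    val u F ≠ 0 ∧ Big (Ideal.absNorm (Ideal.span {val u F})) Z} with hT
  let rts : (Fin (m + 1) → 𝓞 k) → Finset (AlgebraicClosure k) := fun F =>
    if (polyOf F).natDegree = m then
      ((polyOf F).map (algebraMap (𝓞 k) (AlgebraicClosure k))).roots.toFinset else ∅
  have hrts : ∀ F, (rts F).card ≤ m := by
    intro F
    show (if (polyOf F).natDegree = m then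
      ((polyOf F).map (algebraMap (𝓞 k) (AlgebraicClosure k))).roots.toFinset else ∅).card ≤ m
    split_ifs with h
    · refine (Multiset.toFinset_card_le _).trans ((card_roots' _).trans ?_)
      exact natDegree_map_le.trans h.le
    · simp
  have hsub : Bad k φ m B Z ⊆ ⋃ F ∈ hfin.toFinset, (rts F : Set (AlgebraicClosure k)) := by
    rintro x ⟨hx, hxB, hφx, t, ht1, ht2, ht3⟩
    obtain ⟨F, hF1, hF2, hF3, hF4⟩ := hform x B hx hB hxB
    have hval : (val u F : IntermediateField.adjoin k {e}) =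
        algebraMap k (IntermediateField.adjoin k {e}) (φ.leadingCoeff : k) ^ m *
        aeval (AdjoinSimple.gen k e) ((polyOf F).map (algebraMap (𝓞 k) k)) := by
      unfold val polyOf
      rw [Polynomial.map_sum, map_sum, Finset.mul_sum, RingOfIntegers.coe_eq_algebraMap, map_sum]
      refine Finset.sum_congr rfl fun i _ => ?_
      rw [map_mul, Polynomial.map_mul, Polynomial.map_pow, map_C, map_X, map_mul, map_pow,
        aeval_C, aeval_X]
      have h1 : algebraMap (𝓞 (IntermediateField.adjoin k {e}))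
        (IntermediateField.adjoin k {e}) (u i) =
        algebraMap k (IntermediateField.adjoin k {e}) (φ.leadingCoeff : k) ^ m *
        AdjoinSimple.gen k e ^ (i : ℕ) := hu i
      rw [h1]
      have h2 : algebraMap (𝓞 (IntermediateField.adjoin k {e}))
        (IntermediateField.adjoin k {e})
        (algebraMap (𝓞 k) (𝓞 (IntermediateField.adjoin k {e})) (F i)) =
        algebraMap k (IntermediateField.adjoin k {e}) (algebraMap (𝓞 k) k (F i)) := rfl
      rw [h2]
      ring
    have h2 := SS.norm_dvd m (polyOf F) x hx hF3 hF2 hF4 φ e hfr he (val u F) hval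
    have h1 : val u F ≠ 0 := by
      intro h0
      have hc0 : (φ.leadingCoeff : k) ≠ 0 := by
        intro h
        have h9 : φ.leadingCoeff = 0 := RingOfIntegers.ext h
        rw [leadingCoeff_eq_zero] at h9
        rw [h9] at hn1
        simp at hn1
      have h5 : (val u F : IntermediateField.adjoin k {e}) = 0 := by
        rw [h0]
        rfl
      rw [hval] at h5
      rcases mul_eq_zero.1 h5 with h6 | h6
      · exact hc0 ((map_eq_zero _).1 (by
          by_contra h8
          exact pow_ne_zero m h8 h6))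
      · refine value_ne k φ e he m (polyOf F) x hx hF3 hF2 hF4 hφx ?_
        have h7 := congrArg (algebraMap (IntermediateField.adjoin k {e}) (AlgebraicClosure k)) h6
        rw [map_zero, ← aeval_algebraMap_apply] at h7
        exact h7
    have h3 : Ideal.absNorm (Ideal.span {val u F}) ≠ 0 := by
      rw [Ne, Ideal.absNorm_eq_zero_iff, Ideal.span_singleton_eq_bot]
      exact h1
    rw [← Ideal.absNorm_span_singleton] at h2
    have hFT : F ∈ T := ⟨hF1, h1, big_of_dvd _ t h3 (ht1.trans h2) ht2 Z ht3⟩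
    refine Set.mem_biUnion (x := F) ((Set.Finite.mem_toFinset hfin).2 hFT) ?_
    have h4 : rts F = ((polyOf F).map (algebraMap (𝓞 k) (AlgebraicClosure k))).roots.toFinset :=
      if_pos hF3
    rw [h4, Finset.mem_coe, Multiset.mem_toFinset, mem_roots', IsRoot.def]
    have hinj : Function.Injective (algebraMap (𝓞 k) (AlgebraicClosure k)) := by
      rw [IsScalarTower.algebraMap_eq (𝓞 k) k (AlgebraicClosure k)]
      exact (algebraMap k (AlgebraicClosure k)).injective.comp RingOfIntegers.coe_injective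
    refine ⟨(Polynomial.map_ne_zero_iff hinj).2 hF2, ?_⟩
    rw [eval_map_algebraMap, ← aeval_map_algebraMap k]
    exact hF4
  have hfin2 : (⋃ F ∈ hfin.toFinset, (rts F : Set (AlgebraicClosure k))).Finite :=
    Set.Finite.biUnion (Finset.finite_toSet _) fun F _ => (rts F).finite_toSet
  refine ⟨hfin2.subset hsub, ?_⟩
  have h1 : (Bad k φ m B Z).ncard ≤ T.ncard * m := by
    refine (Set.ncard_le_ncard hsub hfin2).trans ((Finset.set_ncard_biUnion_le _ _).trans ?_)
    rw [Set.ncard_eq_toFinset_card T hfin, ← smul_eq_mul, ← Finset.sum_const]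
    refine Finset.sum_le_sum fun F _ => ?_
    rw [Set.ncard_coe_finset]
    exact hrts F
  have h2 : R ^ (d * (m + 1)) = C₀ ^ (d * (m + 1)) * B ^ (m + 1) := by
    rw [hR, mul_pow]
    congr 1
    rw [pow_mul, ← Real.rpow_natCast (B ^ ((1 : ℝ) / d)) d, ← Real.rpow_mul hB0.le, one_div,
      inv_mul_cancel₀ (by exact_mod_cast hd0.ne'), Real.rpow_one]
  rw [h2] at hcard
  have hZ0 : 0 < Z := lt_of_lt_of_le one_pos hZ
  calc ((Bad k φ m B Z).ncard : ℝ) ≤ (T.ncard : ℝ) * m := by exact_mod_cast h1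
    _ ≤ (C * (C₀ ^ (d * (m + 1)) * B ^ (m + 1)) * Z ^ (-δ)) * m :=
        mul_le_mul_of_nonneg_right hcard (Nat.cast_nonneg _)
    _ = (m * (C * C₀ ^ (d * (m + 1)))) * B ^ (m + 1) * Z ^ (-δ) := by ring
    _ ≤ (m * (C * C₀ ^ (d * (m + 1))) + 1) * B ^ (m + 1) * Z ^ (-δ) := by
        have : 0 < Z ^ (-δ) := Real.rpow_pos_of_pos hZ0 _
        refine mul_le_mul_of_nonneg_right (mul_le_mul_of_nonneg_right (by linarith)
          (by positivity)) this.le

end Pool.Agent.SFD
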