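import Pool.Agent.AAL.Defs

/-!
# Vectors of integers of `k` whose value lies in an ideal of an extension `M`

For integers `u 0, ..., u m` of `M`, the first `j` of which are linearly independent over `k`, the
number of the vectors `F` in `(𝓞 k) ^ (m + 1)` of size at most `R` for which `∑ F i * u i` is a
nonzero element of the ideal `w` is at most `C R ^ (d (m + 1)) N(w) ^ (- j / n)`, `n = [M : k]`.
-/

set_option autoImplicit false

open Polynomial NumberField IntermediateField Module

namespace Pool.Agent.SFD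

/-- one real coordinate for every embedding -/
private noncomputable def coordI {K : Type} [Field K] [NumberField K] (φ : K →+* ℂ) (a : K) : ℝ :=
  open Classical in if φ = (InfinitePlace.mk φ).embedding then (φ a).re else (φ a).im

private theorem coordI_sub {K : Type} [Field K] [NumberField K] (φ : K →+* ℂ) (a b : K) :
    coordI φ (a - b) = coordI φ a - coordI φ b := by
  unfold coordI
  split_ifs
  · rw [map_sub, Complex.sub_re]
  · rw [map_sub, Complex.sub_im]

private theorem abs_coordI {K : Type} [Field K] [NumberField K] (φ : K →+* ℂ) (a : K) :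
    |coordI φ a| ≤ (InfinitePlace.mk φ) a := by
  rw [InfinitePlace.apply]
  unfold coordI
  split_ifs
  · exact Complex.abs_re_le_norm _
  · exact Complex.abs_im_le_norm _

private theorem lt_of_coordI {K : Type} [Field K] [NumberField K] (a : K) (t : ℝ) (ht : 0 < t)
    (h : ∀ φ : K →+* ℂ, |coordI φ a| < t / 2) (w : InfinitePlace K) : w a < t := by
  classical
  have hre : |(w.embedding a).re| < t / 2 := by
    have := h w.embedding
    unfold coordI at this
    rwa [InfinitePlace.mk_embedding, if_pos rfl] at this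
  have him : |(w.embedding a).im| < t / 2 := by
    by_cases hw : w.IsReal
    · have h1 := InfinitePlace.isReal_iff.1 hw
      have h2 : starRingEnd ℂ (w.embedding a) = w.embedding a := by
        have := RingHom.congr_fun h1 a
        rwa [ComplexEmbedding.conjugate_coe_eq] at this
      rw [Complex.conj_eq_iff_im] at h2
      rw [h2, abs_zero]
      linarith
    · have h1 : ¬ ComplexEmbedding.IsReal w.embedding := fun h2 => hw (InfinitePlace.isReal_iff.2 h2)
      have h3 : ComplexEmbedding.conjugate w.embedding ≠ w.embedding := h1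
      have := h (ComplexEmbedding.conjugate w.embedding)
      unfold coordI at this
      rw [InfinitePlace.mk_conjugate_eq, InfinitePlace.mk_embedding, if_neg h3,
        ComplexEmbedding.conjugate_coe_eq, Complex.conj_im, abs_neg] at this
      exact this
  rw [← InfinitePlace.norm_embedding_eq w a]
  have h1 : ‖w.embedding a‖ ^ 2 < t ^ 2 := by
    rw [Complex.sq_norm, Complex.normSq_apply]
    have h2 := abs_lt.1 hre
    have h3 := abs_lt.1 him
    nlinarith [mul_self_lt_mul_self (abs_nonneg (w.embedding a).re) hre,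
      mul_self_lt_mul_self (abs_nonneg (w.embedding a).im) him,
      abs_mul_abs_self (w.embedding a).re, abs_mul_abs_self (w.embedding a).im]
  exact lt_of_pow_lt_pow_left₀ 2 ht.le h1

/-- a nonzero element of an ideal has a large norm -/
theorem absNorm_le {k : Type} [Field k] [NumberField k] (𝔠 : Ideal (𝓞 k)) (z : 𝓞 k)
    (hz : z ≠ 0) (hmem : z ∈ 𝔠) (t : ℝ) (h : ∀ w : InfinitePlace k, w (z : k) ≤ t) :
    (Ideal.absNorm 𝔠 : ℝ) ≤ t ^ finrank ℚ k := by
  have h1 : (Ideal.absNorm 𝔠 : ℤ) ∣ Algebra.norm ℤ z := Ideal.absNorm_dvd_norm_of_mem hmem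
  have h2 : Algebra.norm ℤ z ≠ 0 := Algebra.norm_ne_zero_iff.2 hz
  have h3 : (Ideal.absNorm 𝔠 : ℤ) ≤ |Algebra.norm ℤ z| :=
    Int.le_of_dvd (abs_pos.2 h2) ((dvd_abs _ _).2 h1)
  have h4 : (Ideal.absNorm 𝔠 : ℝ) ≤ |((Algebra.norm ℤ z : ℤ) : ℝ)| := by
    exact_mod_cast h3
  have h5 : |((Algebra.norm ℤ z : ℤ) : ℝ)| = ∏ w : InfinitePlace k, w (z : k) ^ w.mult := by
    rw [InfinitePlace.prod_eq_abs_norm, ← Algebra.coe_norm_int]
    push_cast
    rfl
  have h6 : ∏ w : InfinitePlace k, w (z : k) ^ w.mult ≤ ∏ w : InfinitePlace k, t ^ w.mult :=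
    Finset.prod_le_prod (fun w _ => pow_nonneg (apply_nonneg w _) _)
      fun w _ => pow_le_pow_left₀ (apply_nonneg w _) (h w) _
  have h7 : ∏ w : InfinitePlace k, t ^ w.mult = t ^ finrank ℚ k := by
    rw [Finset.prod_pow_eq_pow_sum, InfinitePlace.sum_mult_eq]
  rw [h7, ← h5] at h6
  exact h4.trans h6

/-- Cells with a mesh for every coordinate. -/
theorem cells {k : Type} [Field k] [NumberField k] {ι : Type} [Fintype ι] (R : ℝ) (t : ι → ℝ)
    (hR : 0 ≤ R) (ht : ∀ i, 0 < t i) (htR : ∀ i, t i ≤ R) (S : Set (ι → 𝓞 k))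
    (hS : ∀ G ∈ S, ∀ i, ∀ w : InfinitePlace k, w (G i : k) ≤ R)
    (hinj : ∀ G ∈ S, ∀ G' ∈ S,
      (∀ i, ∀ w : InfinitePlace k, w ((G i : k) - (G' i : k)) < t i) → G = G') :
    S.Finite ∧ (S.ncard : ℝ) ≤ ∏ i, (8 * R / t i) ^ finrank ℚ k := by
  classical
  set F : Finset ((i : ι) → (k →+* ℂ) → ℤ) :=
    Fintype.piFinset fun i => Fintype.piFinset fun _ =>
      Finset.Ico (-⌈2 * R / t i⌉ - 1) (⌈2 * R / t i⌉ + 1) with hF
  have hmaps : ∀ G ∈ S, (fun (i : ι) (φ : k →+* ℂ) => ⌊2 * coordI φ (G i : k) / t i⌋) ∈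
      (F : Set _) := by
    intro G hG
    rw [Finset.mem_coe, hF, Fintype.mem_piFinset]
    intro i
    rw [Fintype.mem_piFinset]
    intro φ
    have h1 := abs_le.1 ((abs_coordI φ (G i : k)).trans (hS G hG i (InfinitePlace.mk φ)))
    have h2 := Int.le_ceil (2 * R / t i)
    have h3 : 2 * coordI φ (G i : k) / t i ≤ 2 * R / t i :=
      div_le_div_of_nonneg_right (by linarith [h1.2]) (ht i).le
    have h4 : -(2 * R / t i) ≤ 2 * coordI φ (G i : k) / t i := by
      rw [← neg_div]
      exact div_le_div_of_nonneg_right (by linarith [h1.1]) (ht i).le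
    rw [Finset.mem_Ico, Int.le_floor, Int.floor_lt]
    push_cast
    constructor <;> linarith
  have hinj' : Set.InjOn (fun (G : ι → 𝓞 k) (i : ι) (φ : k →+* ℂ) =>
      ⌊2 * coordI φ (G i : k) / t i⌋) S := by
    intro G hG G' hG' hGG
    refine hinj G hG G' hG' fun i w => ?_
    refine lt_of_coordI _ (t i) (ht i) (fun φ => ?_) w
    have h2 : ⌊2 * coordI φ (G i : k) / t i⌋ = ⌊2 * coordI φ (G' i : k) / t i⌋ :=
      congrFun (congrFun hGG i) φ
    have h4 := Int.abs_sub_lt_one_of_floor_eq_floor h2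
    rw [coordI_sub, abs_lt]
    rw [← sub_div, abs_div, abs_of_pos (ht i), div_lt_one (ht i), ← mul_sub, abs_mul,
      abs_two] at h4
    have h5 := abs_lt.1 (show |coordI φ (G i : k) - coordI φ (G' i : k)| < t i / 2 by linarith)
    exact h5
  have hfin : S.Finite := Set.Finite.of_injOn hmaps hinj' F.finite_toSet
  refine ⟨hfin, ?_⟩
  have h1 : S.ncard ≤ F.card := by
    rw [← Set.ncard_coe_finset]
    exact Set.ncard_le_ncard_of_injOn _ hmaps hinj' F.finite_toSet
  have h2 : (F.card : ℝ) ≤ ∏ i, (8 * R / t i) ^ finrank ℚ k := by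
    rw [hF, Fintype.card_piFinset, Nat.cast_prod]
    refine Finset.prod_le_prod (fun i _ => Nat.cast_nonneg _) fun i _ => ?_
    rw [Fintype.card_piFinset, Finset.prod_const, Finset.card_univ, Int.card_Ico,
      Embeddings.card, Nat.cast_pow]
    refine pow_le_pow_left₀ (Nat.cast_nonneg _) ?_ _
    have h3 : (0 : ℤ) ≤ ⌈2 * R / t i⌉ := Int.ceil_nonneg (by have := ht i; positivity)
    have h4 : (((⌈2 * R / t i⌉ + 1 - (-⌈2 * R / t i⌉ - 1)).toNat : ℕ) : ℝ) =
        ((⌈2 * R / t i⌉ + 1 - (-⌈2 * R / t i⌉ - 1) : ℤ) : ℝ) := by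
      exact_mod_cast Int.toNat_of_nonneg (by linarith)
    rw [h4]
    push_cast
    have h5 := Int.ceil_lt_add_one (2 * R / t i)
    have h6 : 1 ≤ R / t i := by
      rw [le_div_iff₀ (ht i), one_mul]
      exact htR i
    have h7 : 2 * R / t i = 2 * (R / t i) := by ring
    have h8 : 8 * R / t i = 8 * (R / t i) := by ring
    rw [h7] at h5 ⊢
    rw [h8]
    linarith
  exact (Nat.cast_le.2 h1).trans h2

end Pool.Agent.SFD
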