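import Pool.Agent.SFD.Count

/-!
# Vectors of integers of `k` whose value lies in an ideal of an extension `M`
-/

set_option autoImplicit false

open Polynomial NumberField IntermediateField Module

namespace Pool.Agent.SFD

/-- the value of the linear form with the coefficients `u` -/
noncomputable def val {k M : Type} [Field k] [NumberField k] [Field M] [NumberField M] [Algebra k M]
    {m : ℕ} (u : Fin m → 𝓞 M) (F : Fin m → 𝓞 k) : 𝓞 M :=
  ∑ i, algebraMap (𝓞 k) (𝓞 M) (F i) * u i

theorem val_sub {k M : Type} [Field k] [NumberField k] [Field M] [NumberField M] [Algebra k M]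
    {m : ℕ} (u : Fin m → 𝓞 M) (F G : Fin m → 𝓞 k) :
    val u (fun i => F i - G i) = val u F - val u G := by
  unfold val
  rw [← Finset.sum_sub_distrib]
  refine Finset.sum_congr rfl fun i _ => ?_
  rw [map_sub, sub_mul]

/-- an integer all whose conjugates are smaller than `1` is zero -/
theorem eq_zero_of_lt_one {k : Type} [Field k] [NumberField k] (z : 𝓞 k)
    (h : ∀ w : InfinitePlace k, w (z : k) < 1) : z = 0 := by
  by_contra hz
  obtain ⟨w, hw⟩ : ∃ w : InfinitePlace k, 1 ≤ w (z : k) := by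
    have := InfinitePlace.one_le_of_lt_one (K := k) (w := Classical.arbitrary _) (a := z) hz
    by_contra hcon
    push Not at hcon
    have h2 := this (fun w _ => hcon w)
    exact absurd h2 (not_le.2 (h _))
  exact absurd hw (not_le.2 (h w))

/-- the size of a value -/
theorem size_val {k M : Type} [Field k] [NumberField k] [Field M] [NumberField M] [Algebra k M]
    {m : ℕ} (u : Fin m → 𝓞 M) : ∃ C : ℝ, 1 ≤ C ∧ ∀ (F : Fin m → 𝓞 k) (t : ℝ), 0 ≤ t →
      (∀ i, u i = 0 ∨ ∀ v : InfinitePlace k, v (F i : k) ≤ t) →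
      ∀ w : InfinitePlace M, w (val u F : M) ≤ C * t := by
  refine ⟨1 + ∑ w : InfinitePlace M, ∑ i, w (u i : M), ?_, ?_⟩
  · have : 0 ≤ ∑ w : InfinitePlace M, ∑ i, w (u i : M) :=
      Finset.sum_nonneg fun w _ => Finset.sum_nonneg fun i _ => apply_nonneg w _
    linarith
  intro F t ht hF w
  have h1 : (val u F : M) = ∑ i, algebraMap k M (F i : k) * (u i : M) := by
    unfold val
    rw [RingOfIntegers.coe_eq_algebraMap, map_sum]
    refine Finset.sum_congr rfl fun i _ => ?_
    rw [map_mul]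
    rfl
  have h2 : w (val u F : M) ≤ ∑ i, t * w (u i : M) := by
    rw [h1]
    rw [← InfinitePlace.norm_embedding_eq, map_sum]
    refine (norm_sum_le _ _).trans (Finset.sum_le_sum fun i _ => ?_)
    rw [InfinitePlace.norm_embedding_eq, map_mul]
    rcases hF i with h0 | h0
    · rw [h0]
      simp
    · refine mul_le_mul_of_nonneg_right ?_ (apply_nonneg w _)
      have h3 : w (algebraMap k M (F i : k)) = (w.comap (algebraMap k M)) (F i : k) := rfl
      rw [h3]
      exact h0 _
  rw [← Finset.mul_sum] at h2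
  have h4 : ∑ i, w (u i : M) ≤ ∑ w : InfinitePlace M, ∑ i, w (u i : M) :=
    Finset.single_le_sum (f := fun w : InfinitePlace M => ∑ i, w (u i : M))
      (fun w _ => Finset.sum_nonneg fun i _ => apply_nonneg w _) (Finset.mem_univ w)
  calc w (val u F : M) ≤ t * ∑ i, w (u i : M) := h2
    _ ≤ t * (1 + ∑ w : InfinitePlace M, ∑ i, w (u i : M)) :=
        mul_le_mul_of_nonneg_left (by linarith) ht
    _ = _ := mul_comm _ _

private theorem card_lt (m j : ℕ) (hj : j ≤ m) :
    (Finset.univ.filter fun i : Fin m => (i : ℕ) < j).card = j := by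
  rw [← Fintype.card_subtype]
  have e : {i : Fin m // (i : ℕ) < j} ≃ Fin j :=
    { toFun := fun i => ⟨i.1, i.2⟩
      invFun := fun i => ⟨⟨i.1, lt_of_lt_of_le i.2 hj⟩, i.2⟩
      left_inv := fun i => rfl
      right_inv := fun i => rfl }
  rw [Fintype.card_congr e, Fintype.card_fin]

/-- The number of the vectors whose value is a nonzero element of an ideal. -/
theorem count_le {k M : Type} [Field k] [NumberField k] [Field M] [NumberField M] [Algebra k M]
    {m : ℕ} (u : Fin m → 𝓞 M) (j : ℕ) (hj : j ≤ m)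
    (hu : LinearIndependent k (fun i : Fin j => (u (Fin.castLE hj i) : M))) :
    ∃ C : ℝ, 0 < C ∧ ∀ (w : Ideal (𝓞 M)) (R : ℝ), 1 ≤ R →
      {F : Fin m → 𝓞 k | (∀ i, ∀ v : InfinitePlace k, v (F i : k) ≤ R) ∧ val u F ≠ 0 ∧
        val u F ∈ w}.Finite ∧
      ({F : Fin m → 𝓞 k | (∀ i, ∀ v : InfinitePlace k, v (F i : k) ≤ R) ∧ val u F ≠ 0 ∧
        val u F ∈ w}.ncard : ℝ) ≤
      C * R ^ (finrank ℚ k * m) * (Ideal.absNorm w : ℝ) ^ (-(j : ℝ) / finrank k M) := by
  classical
  obtain ⟨C₁, hC₁, hsize⟩ := size_val (k := k) u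
  set d := finrank ℚ k with hd
  set n := finrank k M with hn
  set D := finrank ℚ M with hD
  have hDdn : D = d * n := (finrank_mul_finrank ℚ k M).symm
  have hd0 : 0 < d := finrank_pos
  have hn0 : 0 < n := finrank_pos
  have hD0 : 0 < D := finrank_pos
  have hC0 : 0 < C₁ := lt_of_lt_of_le one_pos hC₁
  refine ⟨8 ^ (d * m) * (2 * C₁) ^ (d * j), by positivity, fun w R hR => ?_⟩
  have hR0 : 0 < R := lt_of_lt_of_le one_pos hR
  set S := {F : Fin m → 𝓞 k | (∀ i, ∀ v : InfinitePlace k, v (F i : k) ≤ R) ∧ val u F ≠ 0 ∧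
        val u F ∈ w} with hS
  rcases S.eq_empty_or_nonempty with he | ⟨F₀, hF₀⟩
  · rw [he]
    refine ⟨Set.finite_empty, ?_⟩
    rw [Set.ncard_empty, Nat.cast_zero]
    positivity
  set W : ℝ := (Ideal.absNorm w : ℝ) with hW
  have hW1 : 1 ≤ W := by
    have h1 : Ideal.absNorm w ≠ 0 := by
      rw [Ne, Ideal.absNorm_eq_zero_iff]
      rintro rfl
      exact hF₀.2.1 ((Ideal.mem_bot).1 hF₀.2.2)
    rw [hW]
    exact_mod_cast Nat.one_le_iff_ne_zero.2 h1
  have hW0 : 0 < W := lt_of_lt_of_le one_pos hW1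
  have hWR : W ≤ (C₁ * R) ^ D :=
    absNorm_le w _ hF₀.2.1 hF₀.2.2 _ (hsize F₀ R hR0.le fun i => Or.inr (hF₀.1 i))
  set ω : ℝ := W ^ ((1 : ℝ) / D) with hω
  have hω0 : 0 < ω := Real.rpow_pos_of_pos hW0 _
  have hωD : ω ^ D = W := by
    rw [hω, ← Real.rpow_natCast, ← Real.rpow_mul hW0.le, one_div,
      inv_mul_cancel₀ (by exact_mod_cast hD0.ne'), Real.rpow_one]
  have hωR : ω ≤ C₁ * R := by
    rw [← hωD] at hWR
    exact le_of_pow_le_pow_left₀ hD0.ne' (by positivity) hWR
  set t : ℝ := ω / (2 * C₁) with ht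
  have ht0 : 0 < t := by positivity
  have htR : t ≤ R := by
    rw [ht, div_le_iff₀ (by positivity)]
    nlinarith
  let τ : Fin m → ℝ := fun i => if (i : ℕ) < j then t else 1
  have hτ0 : ∀ i, 0 < τ i := by
    intro i
    show 0 < (if (i : ℕ) < j then t else 1)
    split_ifs
    · exact ht0
    · exact one_pos
  have hτR : ∀ i, τ i ≤ R := by
    intro i
    show (if (i : ℕ) < j then t else 1) ≤ R
    split_ifs
    · exact htR
    · exact hR
  have hinj : ∀ F ∈ S, ∀ F' ∈ S,
      (∀ i, ∀ v : InfinitePlace k, v ((F i : k) - (F' i : k)) < τ i) → F = F' := by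
    intro F hF F' hF' hFF
    by_contra hne
    set G : Fin m → 𝓞 k := fun i => F i - F' i with hG
    have hGc : ∀ i, (G i : k) = (F i : k) - (F' i : k) := fun i => rfl
    have hGj : ∀ i : Fin m, ¬ (i : ℕ) < j → G i = 0 := by
      intro i hi
      refine eq_zero_of_lt_one _ fun v => ?_
      have := hFF i v
      rw [hGc]
      simpa only [τ, if_neg hi] using this
    have hGt : ∀ i, ∀ v : InfinitePlace k, v (G i : k) ≤ t := by
      intro i v
      by_cases hi : (i : ℕ) < j
      · have := hFF i v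
        rw [hGc]
        simpa only [τ, if_pos hi] using this.le
      · rw [hGj i hi]
        simpa using ht0.le
    have hGmem : val u G ∈ w := by
      rw [hG, val_sub]
      exact w.sub_mem hF.2.2 hF'.2.2
    have hGne : val u G ≠ 0 := by
      intro h0
      apply hne
      have h1 : (val u G : M) = ∑ i : Fin j, (G (Fin.castLE hj i) : k) • (u (Fin.castLE hj i) : M) := by
        unfold val
        rw [RingOfIntegers.coe_eq_algebraMap, map_sum]
        have h2 : ∀ i : Fin m, algebraMap (𝓞 M) M (algebraMap (𝓞 k) (𝓞 M) (G i) * u i) =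
            (G i : k) • (u i : M) := by
          intro i
          rw [map_mul, Algebra.smul_def]
          rfl
        rw [Finset.sum_congr rfl fun i _ => h2 i]
        symm
        refine Finset.sum_of_injOn (Fin.castLE hj) (fun a _ b _ h => Fin.castLE_injective hj h)
          (fun a _ => Finset.mem_coe.2 (Finset.mem_univ _)) (fun i _ hi => ?_) (fun i _ => rfl)
        have h3 : ¬ (i : ℕ) < j := by
          intro h4
          exact hi ⟨⟨i, h4⟩, Finset.mem_coe.2 (Finset.mem_univ _), rfl⟩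
        rw [hGj i h3]
        simp
      rw [h0] at h1
      have h5 := Fintype.linearIndependent_iff.1 hu (fun i => (G (Fin.castLE hj i) : k))
        (by rw [← h1]; rfl)
      funext i
      by_cases hi : (i : ℕ) < j
      · have h6 : (G i : k) = 0 := h5 ⟨i, hi⟩
        have h7 : G i = 0 := RingOfIntegers.ext h6
        exact sub_eq_zero.1 h7
      · exact sub_eq_zero.1 (hGj i hi)
    have h1 : W ≤ (C₁ * t) ^ D :=
      absNorm_le w _ hGne hGmem _ (hsize G t ht0.le fun i => Or.inr (hGt i))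
    have h2 : C₁ * t = ω / 2 := by
      rw [ht]
      field_simp
    rw [h2, div_pow, hωD, le_div_iff₀ (by positivity)] at h1
    have h3 : (2 : ℝ) ≤ 2 ^ D := by
      calc (2 : ℝ) = 2 ^ 1 := (pow_one _).symm
        _ ≤ 2 ^ D := pow_le_pow_right₀ one_le_two hD0
    nlinarith
  obtain ⟨hfin, hcard⟩ := cells R τ hR0.le hτ0 hτR S (fun F hF => hF.1) hinj
  refine ⟨hfin, hcard.trans (le_of_eq ?_)⟩
  have h1 : ∏ i, (8 * R / τ i) ^ d = (8 * R) ^ (d * m) * (t⁻¹) ^ (d * j) := by
    have h2 : ∀ i, (8 * R / τ i) ^ d = (8 * R) ^ d * (if (i : ℕ) < j then (t⁻¹) ^ d else 1) := by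
      intro i
      show (8 * R / (if (i : ℕ) < j then t else 1)) ^ d = _
      split_ifs
      · rw [div_eq_mul_inv, mul_pow]
      · rw [div_one, mul_one]
    rw [Finset.prod_congr rfl fun i _ => h2 i, Finset.prod_mul_distrib, Finset.prod_const,
      Finset.card_univ, Fintype.card_fin, ← pow_mul, Finset.prod_ite, Finset.prod_const,
      Finset.prod_const_one, mul_one, card_lt m j hj, ← pow_mul]
  rw [h1]
  have h3 : t⁻¹ = (2 * C₁) * ω⁻¹ := by
    rw [ht, inv_div, div_eq_mul_inv]
  have h4 : (ω⁻¹) ^ (d * j) = W ^ (-(j : ℝ) / n) := by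
    rw [hω, ← Real.rpow_neg hW0.le, ← Real.rpow_natCast, ← Real.rpow_mul hW0.le]
    congr 1
    rw [hDdn]
    push_cast
    have hd1 : (d : ℝ) ≠ 0 := by exact_mod_cast hd0.ne'
    have hn1 : (n : ℝ) ≠ 0 := by exact_mod_cast hn0.ne'
    field_simp
  rw [h3, mul_pow, mul_pow, h4]
  ring

end Pool.Agent.SFD
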